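import Mathlib

/-!
Clique minors and a linear density bound (helper81).
-/

open Finset Classical

universe u v

namespace Pool.Agent.Helper81.Square

/-- connectedness of a set of vertices, in the form used in the proofs -/
def Cn {V : Type u} (G : SimpleGraph V) (S : Set V) : Prop :=
  S.Nonempty ∧ ∀ a ∈ S, ∀ b ∈ S,
    Relation.ReflTransGen (fun x y => G.Adj x y ∧ x ∈ S ∧ y ∈ S) a b

lemma cn_iff {V : Type u} (G : SimpleGraph V) (S : Set V) :
    Cn G S ↔ (G.induce S).Connected := by
  constructor
  · rintro ⟨⟨s, hs⟩, h⟩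
    have : Nonempty S := ⟨⟨s, hs⟩⟩
    refine SimpleGraph.Connected.mk ?_
    rintro ⟨a, ha⟩ ⟨b, hb⟩
    rw [SimpleGraph.reachable_iff_reflTransGen]
    have key : ∀ c, Relation.ReflTransGen (fun x y => G.Adj x y ∧ x ∈ S ∧ y ∈ S) a c →
        ∃ hc : c ∈ S, Relation.ReflTransGen (G.induce S).Adj ⟨a, ha⟩ ⟨c, hc⟩ := by
      intro c hc
      induction hc with
      | refl => exact ⟨ha, Relation.ReflTransGen.refl⟩
      | tail _ h2 ih =>
        obtain ⟨hb', ih⟩ := ih
        refine ⟨h2.2.2, ih.tail ?_⟩
        simpa using h2.1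
    obtain ⟨_, h2⟩ := key b (h a ha b hb)
    exact h2
  · intro h
    obtain ⟨⟨s, hs⟩⟩ := h.nonempty
    refine ⟨⟨s, hs⟩, ?_⟩
    intro a ha b hb
    have h1 := h.preconnected ⟨a, ha⟩ ⟨b, hb⟩
    rw [SimpleGraph.reachable_iff_reflTransGen] at h1
    have key : ∀ c : S, Relation.ReflTransGen (G.induce S).Adj ⟨a, ha⟩ c →
        Relation.ReflTransGen (fun x y => G.Adj x y ∧ x ∈ S ∧ y ∈ S) a c.1 := by
      intro c hc
      induction hc with
      | refl => exact Relation.ReflTransGen.refl
      | @tail b' c' _ h2 ih =>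
        refine ih.tail ⟨?_, b'.2, c'.2⟩
        simpa using h2
    exact key ⟨b, hb⟩ h1

/-- `G` has a `K_t` minor with all branch sets inside `S`. -/
def CMOn {V : Type u} (G : SimpleGraph V) (S : Set V) (t : ℕ) : Prop :=
  ∃ B : Fin t → Set V, (∀ i, B i ⊆ S) ∧ (∀ i, Cn G (B i)) ∧
    (∀ i j, i ≠ j → Disjoint (B i) (B j)) ∧
    (∀ i j, i ≠ j → ∃ x ∈ B i, ∃ y ∈ B j, G.Adj x y)

lemma cn_singleton {V : Type u} (G : SimpleGraph V) (x : V) : Cn G {x} := by
  refine ⟨⟨x, rfl⟩, ?_⟩
  rintro a rfl b rfl
  exact Relation.ReflTransGen.refl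

/-- a star is connected -/
lemma cn_star {V : Type u} (G : SimpleGraph V) (S : Set V) (x : V) (hx : x ∈ S)
    (h : ∀ y ∈ S, y ≠ x → G.Adj x y) : Cn G S := by
  refine ⟨⟨x, hx⟩, ?_⟩
  have h1 : ∀ b ∈ S, Relation.ReflTransGen (fun x y => G.Adj x y ∧ x ∈ S ∧ y ∈ S) x b := by
    intro b hb
    by_cases hbx : b = x
    · rw [hbx]
    · exact Relation.ReflTransGen.single ⟨h b hb hbx, hx, hb⟩
  have h2 : ∀ b ∈ S, Relation.ReflTransGen (fun x y => G.Adj x y ∧ x ∈ S ∧ y ∈ S) b x := by
    intro b hb
    by_cases hbx : b = x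
    · rw [hbx]
    · exact Relation.ReflTransGen.single ⟨(h b hb hbx).symm, hb, hx⟩
  intro a ha b hb
  exact (h2 a ha).trans (h1 b hb)

/-- union of connected branch sets over a connected set is connected -/
lemma cn_biUnion {V : Type u} {W : Type v} (H : SimpleGraph V) (G : SimpleGraph W)
    (B : Set V) (R : V → Set W) (hB : Cn H B) (hR : ∀ x ∈ B, Cn G (R x))
    (hadj : ∀ x ∈ B, ∀ y ∈ B, H.Adj x y → ∃ a ∈ R x, ∃ b ∈ R y, G.Adj a b) :
    Cn G (⋃ x ∈ B, R x) := by
  obtain ⟨⟨x0, hx0⟩, hB⟩ := hB
  set U := ⋃ x ∈ B, R x with hU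
  have hsub : ∀ x ∈ B, R x ⊆ U := fun x hx => Set.subset_biUnion_of_mem hx
  have hloc : ∀ x ∈ B, ∀ a ∈ R x, ∀ b ∈ R x,
      Relation.ReflTransGen (fun x y => G.Adj x y ∧ x ∈ U ∧ y ∈ U) a b := by
    intro x hx a ha b hb
    have h := (hR x hx).2 a ha b hb
    clear hb
    induction h with
    | refl => exact Relation.ReflTransGen.refl
    | tail _ h2 ih => exact ih.tail ⟨h2.1, hsub x hx h2.2.1, hsub x hx h2.2.2⟩
  refine ⟨?_, ?_⟩
  · obtain ⟨a, ha⟩ := (hR x0 hx0).1
    exact ⟨a, hsub x0 hx0 ha⟩
  · intro a ha b hb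
    obtain ⟨x, hx, hax⟩ := Set.mem_iUnion₂.mp ha
    obtain ⟨y, hy, hby⟩ := Set.mem_iUnion₂.mp hb
    have key : ∀ z, Relation.ReflTransGen (fun x y => H.Adj x y ∧ x ∈ B ∧ y ∈ B) x z →
        z ∈ B → ∀ c ∈ R z,
        Relation.ReflTransGen (fun x y => G.Adj x y ∧ x ∈ U ∧ y ∈ U) a c := by
      intro z hz
      induction hz with
      | refl => intro _ c hc; exact hloc x hx a hax c hc
      | @tail z z' _ h2 ih =>
        intro hz' c hc
        obtain ⟨c1, hc1, c2, hc2, h12⟩ := hadj z h2.2.1 z' hz' h2.1
        have h3 := ih h2.2.1 c1 hc1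
        exact (h3.tail ⟨h12, hsub z h2.2.1 hc1, hsub z' hz' hc2⟩).trans
          (hloc z' hz' c2 hc2 c hc)
    exact key y (hB x hx y hy) hy b hby

/-- transitivity: a clique minor of a minor is a clique minor -/
lemma CMOn.of_model {V : Type u} {W : Type v} {H : SimpleGraph V} {G : SimpleGraph W}
    {S : Set V} {S' : Set W} {t : ℕ} (h : CMOn H S t) (R : V → Set W)
    (hRS : ∀ x ∈ S, R x ⊆ S') (hR : ∀ x ∈ S, Cn G (R x))
    (hdisj : ∀ x ∈ S, ∀ y ∈ S, x ≠ y → Disjoint (R x) (R y))
    (hadj : ∀ x ∈ S, ∀ y ∈ S, H.Adj x y → ∃ a ∈ R x, ∃ b ∈ R y, G.Adj a b) :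
    CMOn G S' t := by
  obtain ⟨B, hBS, hB, hBd, hBa⟩ := h
  refine ⟨fun i => ⋃ x ∈ B i, R x, ?_, ?_, ?_, ?_⟩
  · intro i
    exact Set.iUnion₂_subset fun x hx => hRS x (hBS i hx)
  · intro i
    exact cn_biUnion H G (B i) R (hB i) (fun x hx => hR x (hBS i hx))
      (fun x hx y hy h => hadj x (hBS i hx) y (hBS i hy) h)
  · intro i j hij
    rw [Set.disjoint_left]
    intro a ha hb
    obtain ⟨x, hx, hax⟩ := Set.mem_iUnion₂.mp ha
    obtain ⟨y, hy, hay⟩ := Set.mem_iUnion₂.mp hb
    have hxy : x ≠ y := by
      rintro rfl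
      exact Set.disjoint_left.mp (hBd i j hij) hx hy
    exact Set.disjoint_left.mp (hdisj x (hBS i hx) y (hBS j hy) hxy) hax hay
  · intro i j hij
    obtain ⟨x, hx, y, hy, hxy⟩ := hBa i j hij
    obtain ⟨a, ha, b, hb, hab⟩ := hadj x (hBS i hx) y (hBS j hy) hxy
    exact ⟨a, Set.mem_biUnion hx ha, b, Set.mem_biUnion hy hb, hab⟩

/-- ordered adjacent pairs inside `S` -/
noncomputable def pairs {V : Type u} (H : SimpleGraph V) (S : Finset V) : Finset (V × V) :=
  (S ×ˢ S).filter (fun p => H.Adj p.1 p.2)

lemma mem_pairs {V : Type u} {H : SimpleGraph V} {S : Finset V} {p : V × V} :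
    p ∈ pairs H S ↔ p.1 ∈ S ∧ p.2 ∈ S ∧ H.Adj p.1 p.2 := by
  simp [pairs, and_assoc]

lemma card_pairs {V : Type u} (H : SimpleGraph V) (S : Finset V) :
    (pairs H S).card = ∑ x ∈ S, (S.filter (fun y => H.Adj x y)).card := by
  rw [card_eq_sum_card_fiberwise (s := pairs H S) (t := S) (f := Prod.fst)
    (fun p hp => (mem_pairs.mp hp).1)]
  apply sum_congr rfl
  intro x hx
  apply card_bij (fun p _ => p.2)
  · intro p hp
    rw [mem_filter, mem_pairs] at hp
    rw [mem_filter]
    exact ⟨hp.1.2.1, hp.2 ▸ hp.1.2.2⟩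
  · intro p hp p' hp' h
    rw [mem_filter] at hp hp'
    exact Prod.ext (hp.2.trans hp'.2.symm) h
  · intro y hy
    rw [mem_filter] at hy
    exact ⟨(x, y), by rw [mem_filter, mem_pairs]; exact ⟨⟨hx, hy.1, hy.2⟩, rfl⟩, rfl⟩

/-- contraction of `y` to `x` -/
def contr {V : Type u} (H : SimpleGraph V) (x y : V) : SimpleGraph V where
  Adj u v := u ≠ v ∧ ∃ a b, H.Adj a b ∧ (if a = y then x else a) = u ∧
    (if b = y then x else b) = v
  symm := ⟨by
    rintro u v ⟨h, a, b, hab, ha, hb⟩
    exact ⟨h.symm, b, a, hab.symm, hb, ha⟩⟩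
  loopless := ⟨fun u h => h.1 rfl⟩

lemma card_pairs_contr {V : Type u} (H : SimpleGraph V) (S : Finset V) (x y : V)
    (hx : x ∈ S) (hxy : H.Adj x y) :
    (pairs H S).card ≤ (pairs (contr H x y) (S.erase y)).card +
      (2 + 2 * (S.filter (fun z => H.Adj x z ∧ H.Adj y z)).card) := by
  set C := S.filter (fun z => H.Adj x z ∧ H.Adj y z) with hC
  set Bad : Finset (V × V) := {(x, y), (y, x)} ∪ (C.image (fun z => (y, z)) ∪
    C.image (fun z => (z, y))) with hBad
  have hBadc : Bad.card ≤ 2 + 2 * C.card := by
    calc Bad.card ≤ ({(x, y), (y, x)} : Finset (V × V)).card +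
        (C.image (fun z => (y, z)) ∪ C.image (fun z => (z, y))).card := card_union_le _ _
      _ ≤ 2 + ((C.image (fun z => (y, z))).card + (C.image (fun z => (z, y))).card) :=
          add_le_add card_le_two (card_union_le _ _)
      _ ≤ 2 + (C.card + C.card) := by
          gcongr <;> exact card_image_le
      _ = _ := by ring
  have hne : x ≠ y := hxy.ne
  have hinj : (pairs H S \ Bad).card ≤ (pairs (contr H x y) (S.erase y)).card := by
    apply card_le_card_of_injOn
      (fun p => (if p.1 = y then x else p.1, if p.2 = y then x else p.2))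
    · rintro ⟨a, b⟩ hab
      rw [mem_coe, mem_sdiff, mem_pairs] at hab
      obtain ⟨⟨ha, hb, hab⟩, hbad⟩ := hab
      simp only at ha hb hab
      rw [mem_coe, mem_pairs]
      simp only [mem_erase]
      refine ⟨?_, ?_, ?_⟩
      · split_ifs with h
        · exact ⟨hne, hx⟩
        · exact ⟨h, ha⟩
      · split_ifs with h
        · exact ⟨hne, hx⟩
        · exact ⟨h, hb⟩
      · refine ⟨?_, a, b, hab, rfl, rfl⟩
        intro heq
        apply hbad
        rw [hBad, mem_union]
        left
        rw [mem_insert, mem_singleton]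
        by_cases h1 : a = y
        · rw [if_pos h1] at heq
          by_cases h2 : b = y
          · exact absurd (h1.trans h2.symm) hab.ne
          · rw [if_neg h2] at heq
            right; rw [h1, ← heq]
        · rw [if_neg h1] at heq
          by_cases h2 : b = y
          · rw [if_pos h2] at heq
            left; rw [heq, h2]
          · rw [if_neg h2] at heq
            exact absurd heq hab.ne
    · rintro ⟨a, b⟩ hab ⟨a', b'⟩ hab' heq
      rw [mem_coe, mem_sdiff, mem_pairs] at hab hab'
      obtain ⟨⟨ha, hb, hab⟩, hbad⟩ := hab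
      obtain ⟨⟨ha', hb', hab'⟩, hbad'⟩ := hab'
      simp only at ha hb hab ha' hb' hab'
      simp only [hBad, mem_union, mem_insert, mem_singleton, Prod.mk.injEq, mem_image, hC,
        mem_filter, not_or, not_exists, not_and] at hbad hbad'
      simp only [Prod.mk.injEq] at heq
      obtain ⟨h1, h2⟩ := heq
      obtain ⟨⟨p1, p2⟩, p3, p4⟩ := hbad
      obtain ⟨⟨p1', p2'⟩, p3', p4'⟩ := hbad'
      have e1 := hab.ne
      have e2 := hab'.ne
      have e3 := hab.symm
      have e4 := hab'.symm
      rw [Prod.mk.injEq]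
      grind
  have h1 : (pairs H S).card ≤ (pairs H S \ Bad).card + Bad.card := by
    exact card_le_card_sdiff_add_card
  omega

/-- density constant -/
def dn : ℕ → ℕ
  | 0 => 0
  | t + 1 => 2 * (dn t + 1)

/-- **Mader**: a graph with more than `dn t * |S|` ordered adjacent pairs inside `S` has a
`K_t` minor inside `S`. -/
theorem dense (t : ℕ) : ∀ (V : Type u) (n : ℕ) (H : SimpleGraph V) (S : Finset V), S.card = n →
    dn t * S.card < (pairs H S).card → CMOn H (S : Set V) t := by
  induction t with
  | zero =>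
    intro V n H S _ _
    exact ⟨fun i => i.elim0, fun i => i.elim0, fun i => i.elim0, fun i => i.elim0,
      fun i => i.elim0⟩
  | succ t iht =>
    intro V n
    induction n with
    | zero =>
      intro H S hS h
      rw [card_eq_zero] at hS
      subst hS
      simp [pairs] at h
    | succ n ihn =>
      intro H S hS h
      by_cases hcase : ∃ x ∈ S, ∃ y ∈ S, H.Adj x y ∧
          (S.filter (fun z => H.Adj x z ∧ H.Adj y z)).card ≤ dn t
      · obtain ⟨x, hx, y, hy, hxy, hc⟩ := hcase
        have h1 := card_pairs_contr H S x y hx hxy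
        have h2 : (S.erase y).card = n := by rw [card_erase_of_mem hy, hS]; rfl
        have h3 : dn (t + 1) * (S.erase y).card < (pairs (contr H x y) (S.erase y)).card := by
          rw [h2]
          rw [hS] at h
          simp only [dn] at h ⊢
          nlinarith
        have h4 := ihn (contr H x y) (S.erase y) h2 h3
        have hne : x ≠ y := hxy.ne
        refine h4.of_model (fun v => {z | z ∈ S ∧ (if z = y then x else z) = v}) ?_ ?_ ?_ ?_
        · intro v _ z hz
          exact hz.1
        · intro v hv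
          rw [mem_coe, mem_erase] at hv
          by_cases hvx : v = x
          · subst hvx
            apply cn_star H _ v
            · exact ⟨hx, by simp⟩
            · rintro z ⟨hz, hzv⟩ hne'
              by_cases hzy : z = y
              · rw [hzy]; exact hxy
              · rw [if_neg hzy] at hzv
                exact absurd hzv hne'
          · apply cn_star H _ v
            · exact ⟨hv.2, by rw [if_neg hv.1]⟩
            · rintro z ⟨hz, hzv⟩ hne'
              by_cases hzy : z = y
              · rw [if_pos hzy] at hzv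
                exact absurd hzv.symm hvx
              · rw [if_neg hzy] at hzv
                exact absurd hzv hne'
        · intro u _ v _ huv
          rw [Set.disjoint_left]
          rintro z ⟨_, hz1⟩ ⟨_, hz2⟩
          exact huv (hz1.symm.trans hz2)
        · rintro u hu v hv ⟨-, a, b, hab, ha, hb⟩
          rw [mem_coe, mem_erase] at hu hv
          refine ⟨a, ⟨?_, ha⟩, b, ⟨?_, hb⟩, hab⟩
          · by_cases hay : a = y
            · rw [hay]; exact hy
            · rw [if_neg hay] at ha
              rw [ha]; exact hu.2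
          · by_cases hby : b = y
            · rw [hby]; exact hy
            · rw [if_neg hby] at hb
              rw [hb]; exact hv.2
      · push Not at hcase
        have hpos : 0 < (pairs H S).card := by omega
        obtain ⟨⟨x, y⟩, hxy⟩ := card_pos.mp hpos
        rw [mem_pairs] at hxy
        obtain ⟨hx, hy, hxy⟩ := hxy
        simp only at hx hy hxy
        set S' := S.filter (fun z => H.Adj x z) with hS'
        have hyS' : y ∈ S' := mem_filter.mpr ⟨hy, hxy⟩
        have h1 : (dn t + 1) * S'.card ≤ (pairs H S').card := by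
          rw [card_pairs, mul_comm, ← smul_eq_mul, ← sum_const]
          apply sum_le_sum
          intro z hz
          rw [mem_filter] at hz
          have h2 := hcase x hx z hz.1 hz.2
          have h3 : S'.filter (fun w => H.Adj z w) =
              S.filter (fun w => H.Adj x w ∧ H.Adj z w) := by
            ext w
            simp only [hS', mem_filter]
            tauto
          rw [h3]
          exact h2
        have h2 : dn t * S'.card < (pairs H S').card := by
          have : 0 < S'.card := card_pos.mpr ⟨y, hyS'⟩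
          nlinarith
        obtain ⟨B, hB1, hB2, hB3, hB4⟩ := iht V S'.card H S' rfl h2
        have hxB : ∀ i, x ∉ B i := by
          intro i hxi
          have := hB1 i hxi
          rw [mem_coe, hS', mem_filter] at this
          exact this.2.ne rfl
        have hxBadj : ∀ i, ∃ z ∈ B i, H.Adj x z := by
          intro i
          obtain ⟨z, hz⟩ := (hB2 i).1
          have := hB1 i hz
          rw [mem_coe, hS', mem_filter] at this
          exact ⟨z, hz, this.2⟩
        refine ⟨Fin.cons {x} B, ?_, ?_, ?_, ?_⟩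
        · intro i
          refine Fin.cases ?_ (fun j => ?_) i
          · simpa using hx
          · rw [Fin.cons_succ]
            exact (hB1 j).trans (coe_subset.mpr (filter_subset _ _))
        · intro i
          refine Fin.cases ?_ (fun j => ?_) i
          · rw [Fin.cons_zero]; exact cn_singleton H x
          · rw [Fin.cons_succ]; exact hB2 j
        · intro i j
          refine Fin.cases ?_ (fun i => ?_) i <;> refine Fin.cases ?_ (fun j => ?_) j
          · intro h; exact absurd rfl h
          · intro _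
            rw [Fin.cons_zero, Fin.cons_succ, Set.disjoint_singleton_left]
            exact hxB j
          · intro _
            rw [Fin.cons_zero, Fin.cons_succ, Set.disjoint_singleton_right]
            exact hxB i
          · intro h
            rw [Fin.cons_succ, Fin.cons_succ]
            exact hB3 i j (fun hij => h (by rw [hij]))
        · intro i j
          refine Fin.cases ?_ (fun i => ?_) i <;> refine Fin.cases ?_ (fun j => ?_) j
          · intro h; exact absurd rfl h
          · intro _
            rw [Fin.cons_zero, Fin.cons_succ]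
            obtain ⟨z, hz, hxz⟩ := hxBadj j
            exact ⟨x, rfl, z, hz, hxz⟩
          · intro _
            rw [Fin.cons_zero, Fin.cons_succ]
            obtain ⟨z, hz, hxz⟩ := hxBadj i
            exact ⟨z, hz, x, rfl, hxz.symm⟩
          · intro h
            rw [Fin.cons_succ, Fin.cons_succ]
            exact hB4 i j (fun hij => h (by rw [hij]))

end Pool.Agent.Helper81.Square
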