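import Pool.Agent.Helper81.Square.Minor

/-!
A linear order with bounded weak 2-reachability for graphs without a `K_t` minor (helper81).
-/

open Finset Classical

universe u v

namespace Pool.Agent.Helper81.Square

variable {V : Type u} [Fintype V]

/-- Key lemma: a vertex with few neighbours and few vertices reachable through the outside. -/
lemma exists_vertex (G : SimpleGraph V) (t : ℕ) (hG : ¬ CMOn G Set.univ t) (p : ℕ)
    (hp : p = dn t * (1 + dn t) + dn t)
    (U : Finset V) (hU : U.Nonempty)
    (hinv : ∀ w ∉ U, (U.filter (fun u => G.Adj w u)).card ≤ p) :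
    ∃ v ∈ U, (U.filter (fun u => G.Adj v u)).card ≤ p ∧
      (U.filter (fun u => u ≠ v ∧ (G.Adj v u ∨ ∃ w, w ∉ U ∧ G.Adj v w ∧ G.Adj w u))).card
        ≤ p + p * p := by
  set d := dn t with hd
  -- valid partial systems of connecting vertices
  let Valid : Finset V → (V → V × V) → Prop := fun T e =>
    (∀ w ∈ T, w ∉ U ∧ (e w).1 ∈ U ∧ (e w).2 ∈ U ∧ (e w).1 ≠ (e w).2 ∧ G.Adj w (e w).1 ∧
      G.Adj w (e w).2) ∧
    (∀ w ∈ T, ∀ w' ∈ T, s((e w).1, (e w).2) = s((e w').1, (e w').2) → w = w')
  obtain ⟨T, hT, hTmax⟩ := exists_max_image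
    ((univ : Finset (Finset V)).filter (fun T => ∃ e, Valid T e)) Finset.card
    ⟨∅, by
      rw [mem_filter]
      obtain ⟨u, hu⟩ := hU
      exact ⟨mem_univ _, fun _ => (u, u), by simp, by simp⟩⟩
  rw [mem_filter] at hT
  obtain ⟨-, e, he1, he2⟩ := hT
  -- the auxiliary graph on U
  obtain ⟨H, hHadj⟩ : ∃ H : SimpleGraph V,
      ∀ x y, H.Adj x y ↔ ∃ w ∈ T, s((e w).1, (e w).2) = s(x, y) :=
    ⟨{ Adj := fun x y => ∃ w ∈ T, s((e w).1, (e w).2) = s(x, y)
       symm := ⟨by
        rintro x y ⟨w, hw, h⟩
        exact ⟨w, hw, by rw [h, Sym2.eq_swap]⟩⟩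
       loopless := ⟨by
        rintro x ⟨w, hw, h⟩
        have h1 := (he1 w hw).2.2.2.1
        rw [Sym2.eq_iff] at h
        rcases h with ⟨h2, h3⟩ | ⟨h2, h3⟩ <;> exact h1 (h2.trans h3.symm)⟩ }, fun x y => Iff.rfl⟩
  -- density of H
  have hHd : (pairs H U).card ≤ d * U.card := by
    by_contra hlt
    push Not at hlt
    have h1 := dense t V U.card H U rfl hlt
    apply hG
    refine h1.of_model (fun x => {z | z = x ∨ (z ∈ T ∧ (e z).1 = x)}) ?_ ?_ ?_ ?_
    · intro x _; exact Set.subset_univ _
    · intro x _
      apply cn_star G _ x (Or.inl rfl)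
      rintro z (hz | ⟨hz, hzx⟩) hne
      · exact absurd hz hne
      · rw [← hzx]; exact (he1 z hz).2.2.2.2.1.symm
    · intro x hx y hy hxy
      rw [Set.disjoint_left]
      rintro z (hz | ⟨hz, hzx⟩) (hz' | ⟨hz', hzy⟩)
      · exact hxy (hz.symm.trans hz')
      · exact (he1 z hz').1 (hz ▸ hx)
      · exact (he1 z hz).1 (hz' ▸ hy)
      · exact hxy (hzx.symm.trans hzy)
    · intro x hx y hy hxy
      obtain ⟨w, hw, h⟩ := (hHadj x y).mp hxy
      have h1 := he1 w hw
      rw [Sym2.eq_iff] at h
      rcases h with ⟨h2, h3⟩ | ⟨h2, h3⟩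
      · refine ⟨w, Or.inr ⟨hw, h2⟩, y, Or.inl rfl, ?_⟩
        rw [← h3]; exact h1.2.2.2.2.2
      · refine ⟨x, Or.inl rfl, w, Or.inr ⟨hw, h2⟩, ?_⟩
        rw [← h3]; exact h1.2.2.2.2.2.symm
  -- |T| is small
  have hTc : T.card ≤ d * U.card := by
    refine le_trans ?_ hHd
    apply card_le_card_of_injOn e
    · intro w hw
      rw [mem_coe] at hw ⊢
      rw [mem_pairs]
      have h1 := he1 w hw
      exact ⟨h1.2.1, h1.2.2.1, (hHadj _ _).mpr ⟨w, hw, rfl⟩⟩
    · intro w hw w' hw' h
      rw [mem_coe] at hw hw'
      exact he2 w hw w' hw' (by rw [h])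
  -- density of G
  have hGd : (pairs G (U ∪ T)).card ≤ d * (U ∪ T).card := by
    by_contra hlt
    push Not at hlt
    have h1 := dense t V _ G (U ∪ T) rfl hlt
    apply hG
    refine h1.of_model (fun x => {x}) ?_ ?_ ?_ ?_
    · intro x _; exact Set.subset_univ _
    · intro x _; exact cn_singleton G x
    · intro x _ y _ hxy; simpa using hxy
    · intro x _ y _ h; exact ⟨x, rfl, y, rfl, h⟩
  -- averaging
  have hsum : ∑ v ∈ U, (((U ∪ T).filter (fun y => G.Adj v y)).card +
      (U.filter (fun y => H.Adj v y)).card) ≤ ∑ v ∈ U, p := by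
    have h0 : ∑ v ∈ U, (U.filter (fun y => H.Adj v y)).card = (pairs H U).card :=
      (card_pairs H U).symm
    rw [sum_add_distrib, h0, sum_const, smul_eq_mul]
    have h1 : ∑ v ∈ U, ((U ∪ T).filter (fun y => G.Adj v y)).card ≤ (pairs G (U ∪ T)).card := by
      rw [card_pairs]
      exact sum_le_sum_of_subset subset_union_left
    have h2 : (U ∪ T).card ≤ U.card + d * U.card := (card_union_le _ _).trans (by omega)
    have h3 : d * (U ∪ T).card ≤ d * (U.card + d * U.card) := Nat.mul_le_mul_left _ h2
    calc _ ≤ d * (U.card + d * U.card) + d * U.card := by omega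
      _ = U.card * p := by rw [hp]; ring
  obtain ⟨v, hv, hvp⟩ := exists_le_of_sum_le hU hsum
  refine ⟨v, hv, ?_, ?_⟩
  · have : (U.filter (fun u => G.Adj v u)).card ≤ ((U ∪ T).filter (fun y => G.Adj v y)).card :=
      card_le_card (filter_subset_filter _ subset_union_left)
    omega
  · -- decomposition
    have hsub : U.filter (fun u => u ≠ v ∧ (G.Adj v u ∨ ∃ w, w ∉ U ∧ G.Adj v w ∧ G.Adj w u)) ⊆
        (U.filter (fun u => G.Adj v u) ∪ U.filter (fun y => H.Adj v y)) ∪
        (T.filter (fun w => G.Adj v w)).biUnion (fun w => U.filter (fun u => G.Adj w u)) := by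
      intro u hu
      rw [mem_filter] at hu
      obtain ⟨huU, huv, h | ⟨w, hwU, hvw, hwu⟩⟩ := hu
      · rw [mem_union, mem_union]
        exact Or.inl (Or.inl (mem_filter.mpr ⟨huU, h⟩))
      · by_cases hwT : w ∈ T
        · rw [mem_union]
          right
          rw [mem_biUnion]
          exact ⟨w, mem_filter.mpr ⟨hwT, hvw⟩, mem_filter.mpr ⟨huU, hwu⟩⟩
        · rw [mem_union, mem_union]
          left; right
          rw [mem_filter]
          refine ⟨huU, ?_⟩
          by_contra hH
          rw [hHadj] at hH
          push Not at hH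
          have hmax := hTmax (insert w T) (by
            rw [mem_filter]
            refine ⟨mem_univ _, Function.update e w (v, u), ?_, ?_⟩
            · intro w' hw'
              by_cases hww : w' = w
              · subst hww
                rw [Function.update_self]
                exact ⟨hwU, hv, huU, fun h => huv h.symm, hvw.symm, hwu⟩
              · rw [Function.update_of_ne hww]
                exact he1 w' ((mem_insert.mp hw').resolve_left hww)
            · intro w1 hw1 w2 hw2 heq
              by_cases h1 : w1 = w <;> by_cases h2 : w2 = w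
              · rw [h1, h2]
              · subst h1
                rw [Function.update_self, Function.update_of_ne h2] at heq
                exact absurd heq.symm (hH w2 ((mem_insert.mp hw2).resolve_left h2))
              · subst h2
                rw [Function.update_self, Function.update_of_ne h1] at heq
                exact absurd heq (hH w1 ((mem_insert.mp hw1).resolve_left h1))
              · rw [Function.update_of_ne h1, Function.update_of_ne h2] at heq
                exact he2 w1 ((mem_insert.mp hw1).resolve_left h1) w2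
                  ((mem_insert.mp hw2).resolve_left h2) heq)
          rw [card_insert_of_notMem hwT] at hmax
          omega
    have h1 : (U.filter (fun u => G.Adj v u)).card ≤
        ((U ∪ T).filter (fun y => G.Adj v y)).card :=
      card_le_card (filter_subset_filter _ subset_union_left)
    have h2 : (T.filter (fun w => G.Adj v w)).card ≤
        ((U ∪ T).filter (fun y => G.Adj v y)).card :=
      card_le_card (filter_subset_filter _ subset_union_right)
    calc _ ≤ _ := card_le_card hsub
      _ ≤ (U.filter (fun u => G.Adj v u) ∪ U.filter (fun y => H.Adj v y)).card +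
          ((T.filter (fun w => G.Adj v w)).biUnion
            (fun w => U.filter (fun u => G.Adj w u))).card := card_union_le _ _
      _ ≤ ((U.filter (fun u => G.Adj v u)).card + (U.filter (fun y => H.Adj v y)).card) +
          (T.filter (fun w => G.Adj v w)).card * p := by
          apply add_le_add (card_union_le _ _)
          apply card_biUnion_le_card_mul
          intro w hw
          exact hinv w (he1 w (mem_filter.mp hw).1).1
      _ ≤ p + p * p := by
          apply add_le_add
          · omega
          · exact Nat.mul_le_mul_right _ (by omega)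

/-- The elimination order. -/
lemma exists_order_aux (G : SimpleGraph V) (t : ℕ) (hG : ¬ CMOn G Set.univ t) (p : ℕ)
    (hp : p = dn t * (1 + dn t) + dn t) (n : ℕ) : ∀ U : Finset V, U.card = n →
    (∀ w ∉ U, (U.filter (fun u => G.Adj w u)).card ≤ p) →
    ∃ ord : V → ℕ, Set.InjOn ord U ∧ (∀ v ∈ U, ord v < n) ∧
      (∀ v ∈ U, (U.filter (fun u => ord u < ord v ∧ G.Adj v u)).card ≤ p) ∧
      (∀ v ∈ U, (U.filter (fun u => ord u < ord v ∧ (G.Adj v u ∨
        ∃ w, (w ∉ U ∨ ord v < ord w) ∧ G.Adj v w ∧ G.Adj w u))).card ≤ p + p * p) := by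
  induction n with
  | zero =>
    intro U hU _
    rw [card_eq_zero] at hU
    subst hU
    exact ⟨fun _ => 0, by simp, by simp, by simp, by simp⟩
  | succ n ih =>
    intro U hU hinv
    have hUne : U.Nonempty := by rw [← card_pos]; omega
    obtain ⟨v, hv, hv1, hv2⟩ := exists_vertex G t hG p hp U hUne hinv
    have hc : (U.erase v).card = n := by rw [card_erase_of_mem hv, hU]; rfl
    obtain ⟨ord, ho1, ho2, ho3, ho4⟩ := ih (U.erase v) hc (by
      intro w hw
      by_cases hwv : w = v
      · subst hwv
        exact (card_le_card (filter_subset_filter _ (erase_subset _ _))).trans hv1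
      · have hwU : w ∉ U := fun h => hw (mem_erase.mpr ⟨hwv, h⟩)
        exact (card_le_card (filter_subset_filter _ (erase_subset _ _))).trans (hinv w hwU))
    refine ⟨Function.update ord v n, ?_, ?_, ?_, ?_⟩
    · intro a ha b hb hab
      rw [mem_coe] at ha hb
      by_cases h1 : a = v <;> by_cases h2 : b = v
      · rw [h1, h2]
      · subst h1
        rw [Function.update_self, Function.update_of_ne h2] at hab
        have := ho2 b (mem_erase.mpr ⟨h2, hb⟩)
        omega
      · subst h2
        rw [Function.update_self, Function.update_of_ne h1] at hab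
        have := ho2 a (mem_erase.mpr ⟨h1, ha⟩)
        omega
      · rw [Function.update_of_ne h1, Function.update_of_ne h2] at hab
        exact ho1 (mem_coe.mpr (mem_erase.mpr ⟨h1, ha⟩)) (mem_coe.mpr (mem_erase.mpr ⟨h2, hb⟩)) hab
    · intro a ha
      by_cases h1 : a = v
      · subst h1; rw [Function.update_self]; omega
      · rw [Function.update_of_ne h1]
        have := ho2 a (mem_erase.mpr ⟨h1, ha⟩)
        omega
    · intro a ha
      by_cases h1 : a = v
      · subst h1
        refine (card_le_card ?_).trans hv1
        intro u hu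
        rw [mem_filter] at hu ⊢
        exact ⟨hu.1, hu.2.2⟩
      · have ha' : a ∈ U.erase v := mem_erase.mpr ⟨h1, ha⟩
        refine (card_le_card ?_).trans (ho3 a ha')
        intro u hu
        rw [mem_filter, Function.update_of_ne h1] at hu
        rw [mem_filter]
        have huv : u ≠ v := by
          rintro rfl
          rw [Function.update_self] at hu
          have := ho2 a ha'
          omega
        rw [Function.update_of_ne huv] at hu
        exact ⟨mem_erase.mpr ⟨huv, hu.1⟩, hu.2⟩
    · intro a ha
      by_cases h1 : a = v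
      · subst h1
        refine (card_le_card ?_).trans hv2
        intro u hu
        rw [mem_filter, Function.update_self] at hu
        rw [mem_filter]
        obtain ⟨huU, hlt, h⟩ := hu
        have hua : u ≠ a := by
          rintro rfl
          rw [Function.update_self] at hlt
          omega
        refine ⟨huU, hua, ?_⟩
        rcases h with h | ⟨w, hw, h⟩
        · exact Or.inl h
        · right
          refine ⟨w, ?_, h⟩
          rcases hw with hw | hw
          · exact hw
          · intro hwU
            by_cases hwa : w = a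
            · rw [hwa, Function.update_self] at hw; omega
            · rw [Function.update_of_ne hwa] at hw
              have := ho2 w (mem_erase.mpr ⟨hwa, hwU⟩)
              omega
      · have ha' : a ∈ U.erase v := mem_erase.mpr ⟨h1, ha⟩
        refine (card_le_card ?_).trans (ho4 a ha')
        intro u hu
        rw [mem_filter, Function.update_of_ne h1] at hu
        rw [mem_filter]
        obtain ⟨huU, hlt, h⟩ := hu
        have huv : u ≠ v := by
          rintro rfl
          rw [Function.update_self] at hlt
          have := ho2 a ha'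
          omega
        rw [Function.update_of_ne huv] at hlt
        refine ⟨mem_erase.mpr ⟨huv, huU⟩, hlt, ?_⟩
        rcases h with h | ⟨w, hw, h⟩
        · exact Or.inl h
        · right
          refine ⟨w, ?_, h⟩
          by_cases hwv : w = v
          · left; rw [hwv]; simp
          · rcases hw with hw | hw
            · left; exact fun h => hw (mem_of_mem_erase h)
            · right; rw [Function.update_of_ne hwv] at hw; exact hw

/-- the bound for weak 2-reachability -/
def DD (t : ℕ) : ℕ := let p := dn t * (1 + dn t) + dn t; p + p * p + p * p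

/-- vertices weakly 2-reachable from `b` -/
noncomputable def back (G : SimpleGraph V) (ord : V → ℕ) (b : V) : Finset V :=
  univ.filter (fun a => ord a < ord b ∧ (G.Adj a b ∨ ∃ x, G.Adj a x ∧ G.Adj x b ∧ ord a < ord x))

theorem exists_order (G : SimpleGraph V) (t : ℕ) (hG : ¬ CMOn G Set.univ t) :
    ∃ ord : V → ℕ, Function.Injective ord ∧ ∀ b, (back G ord b).card ≤ DD t := by
  set p := dn t * (1 + dn t) + dn t with hp
  obtain ⟨ord, ho1, ho2, ho3, ho4⟩ := exists_order_aux G t hG p hp _ univ rfl (by simp)
  have hinj : Function.Injective ord := by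
    rw [coe_univ, Set.injOn_univ] at ho1
    exact ho1
  refine ⟨ord, hinj, fun b => ?_⟩
  have hsub : back G ord b ⊆
      (univ.filter (fun u => ord u < ord b ∧ (G.Adj b u ∨
        ∃ w, (w ∉ (univ : Finset V) ∨ ord b < ord w) ∧ G.Adj b w ∧ G.Adj w u))) ∪
      (univ.filter (fun x => ord x < ord b ∧ G.Adj b x)).biUnion
        (fun x => univ.filter (fun u => ord u < ord x ∧ G.Adj x u)) := by
    intro a ha
    rw [back, mem_filter] at ha
    obtain ⟨-, hab, h | ⟨x, hax, hxb, hlt⟩⟩ := ha
    · rw [mem_union]; left
      rw [mem_filter]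
      exact ⟨mem_univ _, hab, Or.inl h.symm⟩
    · rcases lt_trichotomy (ord x) (ord b) with h | h | h
      · rw [mem_union]; right
        rw [mem_biUnion]
        refine ⟨x, mem_filter.mpr ⟨mem_univ _, h, hxb.symm⟩,
          mem_filter.mpr ⟨mem_univ _, hlt, hax.symm⟩⟩
      · exact absurd (hinj h) hxb.ne
      · rw [mem_union]; left
        rw [mem_filter]
        exact ⟨mem_univ _, hab, Or.inr ⟨x, Or.inr h, hxb.symm, hax.symm⟩⟩
  calc (back G ord b).card ≤ _ := card_le_card hsub
    _ ≤ _ := card_union_le _ _
    _ ≤ (p + p * p) + (univ.filter (fun x => ord x < ord b ∧ G.Adj b x)).card * p := by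
        apply add_le_add (ho4 b (mem_univ _))
        apply card_biUnion_le_card_mul
        intro x _
        exact ho3 x (mem_univ _)
    _ ≤ (p + p * p) + p * p := by
        apply Nat.add_le_add_left
        exact Nat.mul_le_mul_right _ (ho3 b (mem_univ _))
    _ = DD t := rfl

end Pool.Agent.Helper81.Square
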