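import Pool.Agent.Helper81.Square.Core
import Pool.Agent.Helper81.Square.Order

/-!
Square colourings of graphs without a `K_t` minor (helper81).
-/

open Finset Classical

universe u v

namespace Pool.Agent.Helper81.Square

variable {V : Type u} [Fintype V]

/-- greedy colouring along the order -/
lemma exists_greedy (G : SimpleGraph V) (ord : V → ℕ) (hinj : Function.Injective ord) (D : ℕ)
    (hD : ∀ b, (back G ord b).card ≤ D) :
    ∃ ψ : V → Fin (D + 1), ∀ b, ∀ a ∈ back G ord b, ψ a ≠ ψ b := by
  have key : ∀ n : ℕ, ∃ ψ : V → Fin (D + 1), ∀ b, ord b < n → ∀ a ∈ back G ord b,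
      ψ a ≠ ψ b := by
    intro n
    induction n with
    | zero => exact ⟨fun _ => 0, fun b hb => absurd hb (Nat.not_lt_zero _)⟩
    | succ n ih =>
      obtain ⟨ψ, hψ⟩ := ih
      by_cases hex : ∃ b0, ord b0 = n
      · obtain ⟨b0, hb0⟩ := hex
        have hfree : ∃ c, c ∉ (back G ord b0).image ψ := by
          by_contra hno
          push Not at hno
          have h1 : (univ : Finset (Fin (D + 1))) ⊆ (back G ord b0).image ψ := fun c _ => hno c
          have h2 := card_le_card h1
          rw [card_univ, Fintype.card_fin] at h2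
          have h3 := (card_image_le (s := back G ord b0) (f := ψ)).trans (hD b0)
          omega
        obtain ⟨c, hc⟩ := hfree
        refine ⟨Function.update ψ b0 c, ?_⟩
        intro b hb a ha
        have hab : ord a < ord b := by
          rw [back, mem_filter] at ha; exact ha.2.1
        have ha0 : a ≠ b0 := by
          rintro rfl
          omega
        rw [Function.update_of_ne ha0]
        by_cases hbb : b = b0
        · subst hbb
          rw [Function.update_self]
          intro h
          exact hc (mem_image.mpr ⟨a, ha, h⟩)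
        · rw [Function.update_of_ne hbb]
          apply hψ b _ a ha
          have : ord b ≠ ord b0 := fun h => hbb (hinj h)
          omega
      · refine ⟨ψ, fun b hb a ha => hψ b ?_ a ha⟩
        have : ord b ≠ n := fun h => hex ⟨b, h⟩
        omega
  obtain ⟨ψ, hψ⟩ := key ((univ.sup ord) + 1)
  exact ⟨ψ, fun b a ha => hψ b (Nat.lt_succ_of_le (le_sup (f := ord) (mem_univ b))) a ha⟩

/-- smaller neighbours -/
noncomputable def np (G : SimpleGraph V) (ord : V → ℕ) (w : V) : Finset V :=
  univ.filter (fun a => G.Adj a w ∧ ord a < ord w)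

lemma mem_np {G : SimpleGraph V} {ord : V → ℕ} {w a : V} :
    a ∈ np G ord w ↔ G.Adj a w ∧ ord a < ord w := by simp [np]

/-- rank of `a` in `np w` -/
noncomputable def rk (G : SimpleGraph V) (ord : V → ℕ) (w a : V) : ℕ :=
  ((np G ord w).filter (fun a' => ord a' < ord a)).card

/-- choose the element satisfying `P` -/
noncomputable def pick (P : V → Prop) : Option V := if h : ∃ a, P a then some h.choose else none

lemma pick_eq {P : V → Prop} {a : V} (ha : P a) (huniq : ∀ b, P b → b = a) :
    pick P = some a := by
  have h : ∃ a, P a := ⟨a, ha⟩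
  rw [pick, dif_pos h, huniq _ h.choose_spec]

lemma pick_spec {P : V → Prop} {a : V} (h : pick P = some a) : P a := by
  unfold pick at h
  split_ifs at h with h1
  rw [Option.some.injEq] at h
  rw [← h]
  exact h1.choose_spec

/-- label sequence: the `i`-th smallest smaller neighbour -/
noncomputable def lab (G : SimpleGraph V) (ord : V → ℕ) (w : V) (i : ℕ) : Option V :=
  pick (fun a => a ∈ np G ord w ∧ rk G ord w a = i)

lemma rk_lt {G : SimpleGraph V} {ord : V → ℕ} {w a b : V} (ha : a ∈ np G ord w)
    (hab : ord a < ord b) : rk G ord w a < rk G ord w b := by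
  apply card_lt_card
  rw [ssubset_iff_of_subset]
  · refine ⟨a, mem_filter.mpr ⟨ha, hab⟩, ?_⟩
    rw [mem_filter]
    exact fun h => absurd h.2 (lt_irrefl _)
  · intro c hc
    rw [mem_filter] at hc ⊢
    exact ⟨hc.1, hc.2.trans hab⟩

lemma rk_lt_card {G : SimpleGraph V} {ord : V → ℕ} {w a : V} (ha : a ∈ np G ord w) :
    rk G ord w a < (np G ord w).card := by
  apply card_lt_card
  rw [ssubset_iff_of_subset (filter_subset _ _)]
  exact ⟨a, ha, by rw [mem_filter]; exact fun h => absurd h.2 (lt_irrefl _)⟩

lemma np_subset_back (G : SimpleGraph V) (ord : V → ℕ) (w : V) : np G ord w ⊆ back G ord w := by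
  intro a ha
  rw [mem_np] at ha
  rw [back, mem_filter]
  exact ⟨mem_univ _, ha.2, Or.inl ha.1⟩

/-- two elements of `np w` are related -/
lemma np_back {G : SimpleGraph V} {ord : V → ℕ} {w a u : V} (ha : a ∈ np G ord w)
    (hu : u ∈ np G ord w) (hau : ord a < ord u) : a ∈ back G ord u := by
  rw [mem_np] at ha hu
  rw [back, mem_filter]
  exact ⟨mem_univ _, hau, Or.inr ⟨w, ha.1, hu.1.symm, ha.2⟩⟩

/-- the palette of the final colouring -/
abbrev Pal (D : ℕ) (κ : Type) : Type :=
  (Fin (D + 1) × (Fin (D + 1) → Finset (Fin (D + 1)))) × κ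

theorem exists_colouring_of_order (D : ℕ) (κ : Type) [Nonempty κ]
    (hκ : ∀ (α : Type u) (β : Type u) (q : α → ℕ → β) (X : Finset α), Col D q X κ)
    (G : SimpleGraph V) (ord : V → ℕ) (hinj : Function.Injective ord)
    (hD : ∀ b, (back G ord b).card ≤ D) :
    ∃ φ : V → Pal D κ, (∀ a b, G.Adj a b → φ a ≠ φ b) ∧
      ∀ u i, IsSquare ((univ.filter (fun w => G.Adj u w ∧ φ w = i)).card) := by
  obtain ⟨ψ, hψ⟩ := exists_greedy G ord hinj D hD
  -- local injections
  have hemb : ∀ u : V, ∃ e : V → Fin (D + 1), Set.InjOn e (back G ord u) := by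
    intro u
    have : Nonempty ((back G ord u) ↪ Fin (D + 1)) := by
      rw [Function.Embedding.nonempty_iff_card_le]
      simp only [Fintype.card_coe, Fintype.card_fin]
      have := hD u
      omega
    obtain ⟨f⟩ := this
    refine ⟨fun a => if h : a ∈ back G ord u then f ⟨a, h⟩ else 0, ?_⟩
    intro a ha b hb hab
    rw [mem_coe] at ha hb
    simp only [dif_pos ha, dif_pos hb] at hab
    exact congrArg Subtype.val (f.injective hab)
  choose e he using hemb
  let τ : V → Fin (D + 1) → Finset (Fin (D + 1)) := fun w γ =>
    univ.filter (fun i => ∃ u ∈ np G ord w, ψ u = γ ∧ ∃ a ∈ np G ord w, ord a < ord u ∧ e u a = i)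
  let ρ : V → Fin (D + 1) × (Fin (D + 1) → Finset (Fin (D + 1))) := fun w => (ψ w, τ w)
  -- type claim
  have htype : ∀ u w w', u ∈ np G ord w → u ∈ np G ord w' → ρ w = ρ w' →
      ∀ a ∈ np G ord w, ord a < ord u → a ∈ np G ord w' := by
    intro u w w' hu hu' hρ a ha hau
    have h1 : e u a ∈ τ w (ψ u) := by
      simp only [τ, mem_filter, mem_univ, true_and]
      exact ⟨u, hu, rfl, a, ha, hau, rfl⟩
    have h2 : τ w = τ w' := congrArg Prod.snd hρ
    rw [h2] at h1
    simp only [τ, mem_filter, mem_univ, true_and] at h1
    obtain ⟨u', hu'', hψu, a', ha', hau', heq⟩ := h1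
    have huu : u' = u := by
      by_contra hne
      rcases lt_trichotomy (ord u') (ord u) with h | h | h
      · exact hψ u u' (np_back hu'' hu' h) hψu
      · exact hne (hinj h)
      · exact hψ u' u (np_back hu' hu'' h) hψu.symm
    subst huu
    have h3 : a' = a := he u' (np_back ha' hu' hau') (np_back ha hu hau) heq
    rw [← h3]; exact ha'
  -- rank equality
  have hrk : ∀ u w w', u ∈ np G ord w → u ∈ np G ord w' → ρ w = ρ w' →
      ∀ a, ord a ≤ ord u → rk G ord w a = rk G ord w' a := by
    intro u w w' hu hu' hρ a hau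
    unfold rk
    congr 1
    ext c
    rw [mem_filter, mem_filter]
    constructor
    · rintro ⟨h1, h2⟩
      exact ⟨htype u w w' hu hu' hρ c h1 (by omega), h2⟩
    · rintro ⟨h1, h2⟩
      exact ⟨htype u w' w hu' hu hρ.symm c h1 (by omega), h2⟩
  have hlab : ∀ u w w', u ∈ np G ord w → u ∈ np G ord w' → ρ w = ρ w' →
      ∀ i ≤ rk G ord w u, lab G ord w i = lab G ord w' i := by
    intro u w w' hu hu' hρ i hi
    unfold lab
    congr 1
    funext a
    apply propext
    have hlow : ∀ w, u ∈ np G ord w → i ≤ rk G ord w u → rk G ord w a = i → ord a ≤ ord u := by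
      intro w hu hi ha
      by_contra hlt
      push Not at hlt
      have := rk_lt hu hlt
      omega
    have hi' : i ≤ rk G ord w' u := by rw [← hrk u w w' hu hu' hρ u le_rfl]; exact hi
    constructor
    · rintro ⟨h1, h2⟩
      have h3 := hlow w hu hi h2
      refine ⟨?_, ?_⟩
      · rcases h3.lt_or_eq with h | h
        · exact htype u w w' hu hu' hρ a h1 h
        · rw [hinj h]; exact hu'
      · rw [← hrk u w w' hu hu' hρ a h3]; exact h2
    · rintro ⟨h1, h2⟩
      have h3 := hlow w' hu' hi' h2
      refine ⟨?_, ?_⟩
      · rcases h3.lt_or_eq with h | h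
        · exact htype u w' w hu' hu hρ.symm a h1 h
        · rw [hinj h]; exact hu
      · rw [hrk u w w' hu hu' hρ a h3]; exact h2
  -- the class colourings
  have hcol : ∀ r, ∃ c : V → κ, ∀ v, Good D (lab G ord)
      ((univ.filter (fun w => ρ w = r)).filter (fun x => c x = v)) := by
    intro r
    exact hκ V (Option V) (lab G ord) (univ.filter (fun w => ρ w = r))
  choose c hc using hcol
  refine ⟨fun w => (ρ w, c (ρ w) w), ?_, ?_⟩
  · intro a b hab heq
    have h1 : ψ a = ψ b := congrArg (fun x => x.1.1) heq
    rcases lt_trichotomy (ord a) (ord b) with h | h | h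
    · exact hψ b a (np_subset_back G ord b (mem_np.mpr ⟨hab, h⟩)) h1
    · exact hab.ne (hinj h)
    · exact hψ a b (np_subset_back G ord a (mem_np.mpr ⟨hab.symm, h⟩)) h1.symm
  · rintro u ⟨r, v⟩
    -- reduce to a statement on the class
    have hset : univ.filter (fun w => G.Adj u w ∧ ((ρ w, c (ρ w) w) : Pal D κ) = (r, v)) =
        (univ.filter (fun w => ρ w = r)).filter (fun w => c r w = v ∧ G.Adj u w) := by
      ext w
      simp only [mem_filter, mem_univ, true_and, Prod.mk.injEq]
      constructor
      · rintro ⟨h1, h2, h3⟩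
        rw [h2] at h3
        exact ⟨h2, h3, h1⟩
      · rintro ⟨h2, h3, h1⟩
        refine ⟨h1, h2, ?_⟩
        rw [h2]; exact h3
    rw [hset]
    by_cases hcase : ∃ w1 ∈ np G ord u, ρ w1 = r
    · obtain ⟨w1, hw1, hw1r⟩ := hcase
      apply isSquare_of_le_one
      rw [card_le_one]
      have hall : ∀ w ∈ (univ.filter (fun w => ρ w = r)).filter (fun w => c r w = v ∧ G.Adj u w),
          w = w1 := by
        intro w hw
        simp only [mem_filter, mem_univ, true_and] at hw
        obtain ⟨hwr, -, huw⟩ := hw
        by_contra hne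
        have hψe : ψ w = ψ w1 := by
          have := hwr.trans hw1r.symm
          exact congrArg Prod.fst this
        rw [mem_np] at hw1
        rcases lt_trichotomy (ord w) (ord w1) with h | h | h
        · refine hψ w1 w ?_ hψe
          rw [back, mem_filter]
          exact ⟨mem_univ _, h, Or.inr ⟨u, huw.symm, hw1.1.symm, h.trans hw1.2⟩⟩
        · exact hne (hinj h)
        · refine hψ w w1 ?_ hψe.symm
          rw [back, mem_filter]
          exact ⟨mem_univ _, h, Or.inr ⟨u, hw1.1, huw, hw1.2⟩⟩
      intro x hx y hy
      rw [hall x hx, hall y hy]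
    · push Not at hcase
      -- all neighbours in the class are larger
      have hup : ∀ w, ρ w = r → G.Adj u w → u ∈ np G ord w := by
        intro w hwr huw
        rw [mem_np]
        refine ⟨huw, ?_⟩
        rcases lt_trichotomy (ord u) (ord w) with h | h | h
        · exact h
        · exact absurd (hinj h) huw.ne
        · exact absurd hwr (hcase w (mem_np.mpr ⟨huw.symm, h⟩))
      by_cases hQ : ∃ w0, ρ w0 = r ∧ G.Adj u w0
      · obtain ⟨w0, hw0r, huw0⟩ := hQ
        have hu0 := hup w0 hw0r huw0
        have hgood := hc r v (rk G ord w0 u + 1) (by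
          have h1 := rk_lt_card hu0
          have h2 := card_le_card (np_subset_back G ord w0)
          have h3 := hD w0
          omega) (lab G ord w0)
        convert hgood using 2
        ext w
        simp only [mem_filter, mem_univ, true_and]
        constructor
        · rintro ⟨hwr, hcw, huw⟩
          refine ⟨⟨hwr, hcw⟩, ?_⟩
          intro i hi
          exact (hlab u w0 w hu0 (hup w hwr huw) (hw0r.trans hwr.symm) i (by omega)).symm
        · rintro ⟨⟨hwr, hcw⟩, hlw⟩
          refine ⟨hwr, hcw, ?_⟩
          have h1 := hlw (rk G ord w0 u) (Nat.lt_succ_self _)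
          have h2 : lab G ord w0 (rk G ord w0 u) = some u := by
            apply pick_eq ⟨hu0, rfl⟩
            rintro b ⟨hb, hbr⟩
            rcases lt_trichotomy (ord b) (ord u) with h | h | h
            · have := rk_lt hb h; omega
            · exact hinj h
            · have := rk_lt hu0 h; omega
          rw [h2] at h1
          have h3 := pick_spec h1
          exact (mem_np.mp h3.1).1
      · push Not at hQ
        have : (univ.filter (fun w => ρ w = r)).filter (fun w => c r w = v ∧ G.Adj u w) = ∅ := by
          ext w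
          simp only [mem_filter, mem_univ, true_and, notMem_empty, iff_false, not_and]
          intro h1 _
          exact hQ w h1
        rw [this]
        exact ⟨0, by simp⟩

end Pool.Agent.Helper81.Square
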