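import Pool.Agent.Helper81.Square.Tree

/-!
Colouring core: for every depth `k` there is a finite palette `κ` such that the elements of
every depth `k` tree can be coloured so that every (node, colour) count is a square.
-/

open Finset Classical

universe u v

namespace Pool.Agent.Helper81.Square

variable {α β : Type*}

/-- `X` has a colouring by `κ` with all colour classes good. -/
def Col (k : ℕ) (q : α → ℕ → β) (X : Finset α) (κ : Type) : Prop :=
  ∃ c : α → κ, ∀ v, Good k q (X.filter (fun x => c x = v))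

lemma Col.map {k : ℕ} {q : α → ℕ → β} {X : Finset α} {κ κ' : Type} (f : κ → κ')
    (hf : Function.Injective f) (h : Col k q X κ) : Col k q X κ' := by
  obtain ⟨c, hc⟩ := h
  refine ⟨fun x => f (c x), fun v => ?_⟩
  by_cases hv : ∃ u, f u = v
  · obtain ⟨u, rfl⟩ := hv
    convert hc u using 3
    exact hf.eq_iff
  · convert Good.empty k q using 1
    ext x
    simp only [mem_filter, notMem_empty, iff_false, not_and]
    intro _ h
    exact hv ⟨_, h⟩

lemma Col.union {k : ℕ} {q : α → ℕ → β} {X Z : Finset α} {κ κ' : Type} (hZ : Z ⊆ X)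
    (h1 : Col k q Z κ) (h2 : Col k q (X \ Z) κ') : Col k q X (κ ⊕ κ') := by
  obtain ⟨c1, hc1⟩ := h1
  obtain ⟨c2, hc2⟩ := h2
  refine ⟨fun x => if x ∈ Z then Sum.inl (c1 x) else Sum.inr (c2 x), ?_⟩
  rintro (v | v)
  · convert hc1 v using 1
    ext x
    simp only [mem_filter]
    by_cases hx : x ∈ Z
    · simp [hx, hZ hx]
    · simp [hx]
  · convert hc2 v using 1
    ext x
    simp only [mem_filter, mem_sdiff]
    by_cases hx : x ∈ Z
    · simp [hx]
    · simp [hx]

/-- exclusive palettes for at most `card I` children -/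
lemma Col.excl {k : ℕ} {q : α → ℕ → β} {X : Finset α} {κ I : Type} [Fintype I] [Nonempty I]
    (hcard : (X.image (fun x => q x 0)).card ≤ Fintype.card I)
    (ih : ∀ X' : Finset α, Col k (shift q) X' κ) : Col (k + 1) q X (I × κ) := by
  set J := X.image (fun x => q x 0) with hJ
  have hemb : Nonempty (J ↪ I) := by
    rw [Function.Embedding.nonempty_iff_card_le]
    simpa using hcard
  obtain ⟨e⟩ := hemb
  have hch : ∀ b : β, ∃ c : α → κ, ∀ v, Good k (shift q)
      ((X.filter (fun x => q x 0 = b)).filter (fun x => c x = v)) := fun b => ih _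
  choose c hc using hch
  obtain ⟨i0⟩ := ‹Nonempty I›
  refine ⟨fun x => (if h : q x 0 ∈ J then e ⟨q x 0, h⟩ else i0, c (q x 0) x), ?_⟩
  rintro ⟨i, v⟩
  -- the class lies in one child
  by_cases hi : ∃ b, ∃ hb : b ∈ J, e ⟨b, hb⟩ = i
  · obtain ⟨b, hb, hbi⟩ := hi
    have hgood : Good (k + 1) q ((X.filter (fun x => q x 0 = b)).filter (fun x => c b x = v)) := by
      apply Good.succ (hc b v).isSquare_card
      intro b'
      by_cases hbb : b' = b
      · subst hbb
        convert hc b' v using 1
        ext x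
        simp only [mem_filter]
        tauto
      · convert Good.empty k (shift q) using 1
        ext x
        simp only [mem_filter, notMem_empty, iff_false, not_and]
        rintro ⟨⟨-, h1⟩, -⟩ h2
        exact hbb (h2.symm.trans h1)
    convert hgood using 1
    ext x
    simp only [mem_filter, Prod.mk.injEq]
    constructor
    · rintro ⟨hx, h1, h2⟩
      have hxJ : q x 0 ∈ J := mem_image_of_mem _ hx
      rw [dif_pos hxJ, ← hbi] at h1
      have h3 := e.injective h1
      have h4 : q x 0 = b := congrArg Subtype.val h3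
      refine ⟨⟨hx, h4⟩, ?_⟩
      rw [h4] at h2; exact h2
    · rintro ⟨⟨hx, h1⟩, h2⟩
      refine ⟨hx, ?_, ?_⟩
      · subst h1
        rw [dif_pos hb]; exact hbi
      · rw [h1]; exact h2
  · convert Good.empty (k + 1) q using 1
    ext x
    simp only [mem_filter, notMem_empty, iff_false, not_and, Prod.mk.injEq]
    intro hx h1
    have hxJ : q x 0 ∈ J := mem_image_of_mem _ hx
    rw [dif_pos hxJ] at h1
    exact absurd ⟨_, hxJ, h1⟩ hi

/-- depth zero: Lagrange -/
lemma Col.zero (q : α → ℕ → β) (X : Finset α) : Col 0 q X (Fin 4) := by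
  obtain ⟨a, b, c, d, habcd⟩ := Nat.sum_four_squares X.card
  let y : Fin 4 → ℕ := ![a, b, c, d]
  have hy : ∑ i, (y i) ^ 2 = X.card := by simp [Fin.sum_univ_four, y, ← habcd]
  -- a bijection of X with the sigma type
  have he : Nonempty (X ≃ (Σ i : Fin 4, Fin ((y i) ^ 2))) := by
    rw [← Fintype.card_eq]
    simp [hy]
  obtain ⟨e⟩ := he
  refine ⟨fun x => if h : x ∈ X then (e ⟨x, h⟩).1 else 0, fun v j hj b => ?_⟩
  obtain rfl : j = 0 := by omega
  simp only [Nat.not_lt_zero, false_imp_iff, implies_true, filter_true]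
  have hc : (X.filter (fun x => (if h : x ∈ X then (e ⟨x, h⟩).1 else 0) = v)).card =
      (y v) ^ 2 := by
    have h1 : (univ.filter (fun s : (Σ i : Fin 4, Fin ((y i) ^ 2)) => s.1 = v)).card =
        (y v) ^ 2 := by
      rw [← Fintype.card_fin ((y v) ^ 2), ← Fintype.card_subtype]
      apply Fintype.card_congr
      refine ⟨fun s => Fin.cast (by rw [s.2]) s.1.2, fun t => ⟨⟨v, t⟩, rfl⟩, ?_, ?_⟩
      · rintro ⟨⟨i, t⟩, h⟩
        simp only at h
        subst h
        rfl
      · intro t; rfl
    rw [← h1]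
    apply card_bij (fun x hx => e ⟨x, (mem_filter.mp hx).1⟩)
    · intro x hx
      have hxX := (mem_filter.mp hx).1
      have := (mem_filter.mp hx).2
      rw [dif_pos hxX] at this
      simpa using this
    · intro x hx x' hx' h
      have := e.injective h
      exact congrArg Subtype.val this
    · intro s hs
      refine ⟨(e.symm s).1, ?_, by simp⟩
      rw [mem_filter]
      refine ⟨(e.symm s).2, ?_⟩
      rw [dif_pos (e.symm s).2]
      simpa using hs
  rw [hc]
  exact ⟨y v, by ring⟩

/-- numerical lemma for the fixers -/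
lemma exists_fix (D B m : ℕ) (hB : 1 ≤ B) (hD : D ≤ m * B ^ 2) :
    ∃ b : Fin m ⊕ Fin 4 → ℕ, (∀ i, b i ≤ B) ∧ ∑ i, (b i) ^ 2 = D := by
  have hB2 : 0 < B ^ 2 := by positivity
  obtain ⟨y0, y1, y2, y3, hy⟩ := Nat.sum_four_squares (D % B ^ 2)
  let y : Fin 4 → ℕ := ![y0, y1, y2, y3]
  have hysum : ∑ i, (y i) ^ 2 = D % B ^ 2 := by
    simp [Fin.sum_univ_four, y, ← hy]
  have hyle : ∀ i, y i ≤ B := by
    intro i
    have h1 : (y i) ^ 2 ≤ D % B ^ 2 := by
      rw [← hysum]
      exact single_le_sum (f := fun i => (y i) ^ 2) (fun _ _ => Nat.zero_le _) (mem_univ i)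
    have h2 : D % B ^ 2 < B ^ 2 := Nat.mod_lt _ hB2
    by_contra hgt
    push Not at hgt
    have : B ^ 2 ≤ (y i) ^ 2 := Nat.pow_le_pow_left hgt.le 2
    omega
  have hQ : D / B ^ 2 ≤ m := by
    apply Nat.div_le_of_le_mul
    rw [mul_comm]; exact hD
  refine ⟨Sum.elim (fun i => if (i : ℕ) < D / B ^ 2 then B else 0) y, ?_, ?_⟩
  · rintro (i | i)
    · simp only [Sum.elim_inl]; split_ifs <;> omega
    · exact hyle i
  · rw [Fintype.sum_sum_type]
    simp only [Sum.elim_inl, Sum.elim_inr, hysum, ite_pow]
    have h1 : ∑ i : Fin m, (if (i : ℕ) < D / B ^ 2 then B ^ 2 else 0 ^ 2) =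
        (D / B ^ 2) * B ^ 2 := by
      rw [Fin.sum_univ_eq_sum_range (fun i => if i < D / B ^ 2 then B ^ 2 else 0 ^ 2) m]
      simp only [ne_eq, OfNat.ofNat_ne_zero, not_false_eq_true, zero_pow]
      rw [← sum_filter, sum_const, smul_eq_mul]
      congr 1
      have : (range m).filter (fun i => i < D / B ^ 2) = range (D / B ^ 2) := by
        ext i; simp only [mem_filter, mem_range]; omega
      rw [this, card_range]
    rw [h1]
    exact Nat.div_add_mod' D (B ^ 2)

/-- Case A: enough big children repair the columns of the bulk. -/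
lemma caseA {k : ℕ} {q : α → ℕ → β} {X : Finset α} {κ : Type} [Fintype κ]
    (m β₀ n₀ : ℕ) (hm : m = 12 * 8 ^ k * β₀) (hβ : 1 ≤ β₀)
    (R : Finset β) (hRc : R.card = Fintype.card (κ × (Fin m ⊕ Fin 4)))
    (hn₀ : 1 ≤ n₀) (hbig : ∀ b ∈ R, n₀ ≤ (X.filter (fun x => q x 0 = b)).card)
    (hT : (X.filter (fun x => q x 0 ∉ R)).card < (β₀ * n₀) ^ 2)
    (ih : ∀ X' : Finset α, Col k (shift q) X' κ) :
    ∃ Z ⊆ X, Col (k + 1) q Z κ ∧ ∀ x ∈ X \ Z, q x 0 ∈ R := by
  have hch : ∀ b : β, ∃ c : α → κ, ∀ v, Good k (shift q)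
      ((X.filter (fun x => q x 0 = b)).filter (fun x => c x = v)) := fun b => ih _
  choose c hc using hch
  set K := 8 ^ k with hK
  have hKpos : 0 < K := by positivity
  set B := gr K n₀ with hB
  have hB1 : 1 ≤ B := one_le_gr _ _
  have hn0B : n₀ ≤ 4 * K * B ^ 2 := le_gr hKpos
  let Rv : κ → ℕ := fun v => (X.filter (fun x => q x 0 ∉ R ∧ c (q x 0) x = v)).card
  let D : κ → ℕ := fun v => (Nat.sqrt (Rv v) + 1) ^ 2 - Rv v
  have hRvD : ∀ v, Rv v + D v = (Nat.sqrt (Rv v) + 1) ^ 2 := by
    intro v
    have := Nat.lt_succ_sqrt' (Rv v)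
    simp only [D]
    have h2 : (Nat.sqrt (Rv v)).succ ^ 2 = (Nat.sqrt (Rv v) + 1) ^ 2 := rfl
    omega
  have hD : ∀ v, D v ≤ m * B ^ 2 := by
    intro v
    have h1 : Rv v < (β₀ * n₀) ^ 2 := by
      refine lt_of_le_of_lt (card_le_card ?_) hT
      intro x hx
      rw [mem_filter] at hx ⊢
      exact ⟨hx.1, hx.2.1⟩
    have h2 : Nat.sqrt (Rv v) < β₀ * n₀ := by
      rw [Nat.sqrt_lt']; exact h1
    have h3 : (Nat.sqrt (Rv v)) ^ 2 ≤ Rv v := Nat.sqrt_le' _
    have h4 : D v ≤ 2 * Nat.sqrt (Rv v) + 1 := by
      have := hRvD v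
      nlinarith
    have h5 : 1 ≤ β₀ * n₀ := Nat.mul_pos hβ hn₀
    have h6 : β₀ * n₀ ≤ β₀ * (4 * K * B ^ 2) := Nat.mul_le_mul_left _ hn0B
    calc D v ≤ 3 * (β₀ * n₀) := by omega
      _ ≤ 3 * (β₀ * (4 * K * B ^ 2)) := Nat.mul_le_mul_left _ h6
      _ = m * B ^ 2 := by rw [hm]; ring
  have hfix : ∀ v, ∃ b : Fin m ⊕ Fin 4 → ℕ, (∀ i, b i ≤ B) ∧ ∑ i, (b i) ^ 2 = D v :=
    fun v => exists_fix (D v) B m hB1 (hD v)
  choose bb hbb1 hbb2 using hfix
  let e : R ≃ κ × (Fin m ⊕ Fin 4) := Fintype.equivOfCardEq (by simpa using hRc)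
  let a : R → ℕ := fun b => bb (e b).1 (e b).2
  have hsel : ∀ b : R, ∃ S ⊆ X.filter (fun x => q x 0 = b), S.card = (a b) ^ 2 ∧
      Good k (shift q) S := by
    intro b
    apply select
    have h1 : a b ≤ B := hbb1 _ _
    have h2 := hbig b b.2
    rcases gr_feas h1 with h | h
    · left; exact ⟨h, by omega⟩
    · right; exact h.trans h2
  choose S hS1 hS2 hS3 using hsel
  refine ⟨X.filter (fun x => ∀ h : q x 0 ∈ R, x ∈ S ⟨q x 0, h⟩), filter_subset _ _, ?_, ?_⟩
  · refine ⟨fun x => if h : q x 0 ∈ R then (e ⟨q x 0, h⟩).1 else c (q x 0) x, fun v => ?_⟩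
    set Cl := (X.filter (fun x => ∀ h : q x 0 ∈ R, x ∈ S ⟨q x 0, h⟩)).filter
      (fun x => (if h : q x 0 ∈ R then (e ⟨q x 0, h⟩).1 else c (q x 0) x) = v) with hCl
    have hin : ∀ (b : β) (hb : b ∈ R), Cl.filter (fun x => q x 0 = b) =
        if (e ⟨b, hb⟩).1 = v then S ⟨b, hb⟩ else ∅ := by
      intro b hb
      ext x
      simp only [hCl, mem_filter]
      constructor
      · rintro ⟨⟨⟨hx, h1⟩, h2⟩, rfl⟩
        rw [dif_pos hb] at h2
        rw [if_pos h2]
        exact h1 hb
      · intro hx
        split_ifs at hx with hv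
        · have h1 := mem_filter.mp (hS1 ⟨b, hb⟩ hx)
          obtain ⟨h2, h3⟩ := h1
          simp only at h3
          subst h3
          refine ⟨⟨⟨h2, fun _ => hx⟩, ?_⟩, rfl⟩
          rw [dif_pos hb]; exact hv
        · simp at hx
    have hout : ∀ b ∉ R, Cl.filter (fun x => q x 0 = b) =
        (X.filter (fun x => q x 0 = b)).filter (fun x => c b x = v) := by
      intro b hb
      ext x
      simp only [hCl, mem_filter]
      constructor
      · rintro ⟨⟨⟨hx, h1⟩, h2⟩, rfl⟩
        rw [dif_neg hb] at h2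
        exact ⟨⟨hx, rfl⟩, h2⟩
      · rintro ⟨⟨hx, rfl⟩, h2⟩
        refine ⟨⟨⟨hx, fun h => absurd h hb⟩, ?_⟩, rfl⟩
        rw [dif_neg hb]; exact h2
    apply Good.succ
    · -- root count
      have h1 : Cl.card = (Cl.filter (fun x => q x 0 ∉ R)).card +
          (Cl.filter (fun x => q x 0 ∈ R)).card := by
        rw [add_comm, ← card_filter_add_card_filter_not (s := Cl) (fun x => q x 0 ∈ R)]
      have h2 : (Cl.filter (fun x => q x 0 ∉ R)).card = Rv v := by
        congr 1
        ext x
        simp only [hCl, mem_filter]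
        constructor
        · rintro ⟨⟨⟨hx, h1⟩, h2⟩, h3⟩
          rw [dif_neg h3] at h2
          exact ⟨hx, h3, h2⟩
        · rintro ⟨hx, h3, h2⟩
          refine ⟨⟨⟨hx, fun h => absurd h h3⟩, ?_⟩, h3⟩
          rw [dif_neg h3]; exact h2
      have h3 : (Cl.filter (fun x => q x 0 ∈ R)).card = D v := by
        have hmaps : ∀ x ∈ Cl.filter (fun x => q x 0 ∈ R), q x 0 ∈ R :=
          fun x hx => (mem_filter.mp hx).2
        rw [card_eq_sum_card_fiberwise hmaps, ← hbb2 v, ← sum_coe_sort R]
        have h4 : ∀ b : R, ((Cl.filter (fun x => q x 0 ∈ R)).filter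
            (fun x => q x 0 = b)).card = if (e b).1 = v then (a b) ^ 2 else 0 := by
          rintro ⟨b, hb⟩
          have h5 : (Cl.filter (fun x => q x 0 ∈ R)).filter (fun x => q x 0 = b) =
              Cl.filter (fun x => q x 0 = b) := by
            ext x
            simp only [mem_filter]
            constructor
            · rintro ⟨⟨h1, -⟩, h2⟩; exact ⟨h1, h2⟩
            · rintro ⟨h1, h2⟩; exact ⟨⟨h1, h2 ▸ hb⟩, h2⟩
          simp only
          rw [h5, hin b hb]
          split_ifs
          · exact hS2 _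
          · simp
        simp_rw [h4]
        rw [← e.symm.sum_comp]
        simp only [a, Equiv.apply_symm_apply]
        rw [Fintype.sum_prod_type]
        rw [sum_eq_single_of_mem v (mem_univ _)]
        · simp
        · intro u _ hu
          simp [hu]
      rw [h1, h2, h3, hRvD v]
      exact ⟨Nat.sqrt (Rv v) + 1, by ring⟩
    · intro b
      by_cases hb : b ∈ R
      · rw [hin b hb]
        split_ifs
        · exact hS3 _
        · exact Good.empty _ _
      · rw [hout b hb]
        exact hc b v
  · intro x hx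
    rw [mem_sdiff, mem_filter, not_and] at hx
    by_contra hcon
    exact hx.2 hx.1 fun h => absurd h hcon

/-- Case B: all children are small, so there are many of them. -/
lemma caseB {k : ℕ} {q : α → ℕ → β} {X : Finset α} {κ : Type} [Fintype κ]
    (β₀ : ℕ) (hβ : β₀ = 3 * (Fintype.card κ + 1)) (hne : X.Nonempty)
    (hsmall : ∀ b ∈ X.image (fun x => q x 0),
      (β₀ * (X.filter (fun x => q x 0 = b)).card) ^ 2 ≤ X.card)
    (ih : ∀ X' : Finset α, Col k (shift q) X' κ) :
    Col (k + 1) q X (Option κ ⊕ Fin 4) := by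
  set J := X.image (fun x => q x 0) with hJ
  set s := Nat.sqrt X.card with hs
  have hs1 : 1 ≤ s := by
    rw [hs, Nat.le_sqrt]
    simpa using hne.card_pos
  have hs2 : s ^ 2 ≤ X.card := Nat.sqrt_le' _
  -- many children
  have hmany : β₀ * s ≤ J.card := by
    have h1 : ∀ b ∈ J, β₀ * (X.filter (fun x => q x 0 = b)).card ≤ s := fun b hb =>
      Nat.le_sqrt'.mpr (hsmall b hb)
    have h2 : β₀ * X.card ≤ J.card * s := by
      rw [card_eq_sum_card_fiberwise (s := X) (t := J) (f := fun x => q x 0)
        (fun x hx => mem_image_of_mem _ hx), mul_sum, ← smul_eq_mul (J.card), ← sum_const]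
      exact sum_le_sum h1
    have h3 : (β₀ * s) * s ≤ J.card * s := by
      calc (β₀ * s) * s = β₀ * s ^ 2 := by ring
        _ ≤ β₀ * X.card := Nat.mul_le_mul_left _ hs2
        _ ≤ _ := h2
    exact Nat.le_of_mul_le_mul_right h3 hs1
  set d := 2 * s + 1 with hd
  have hemb : Nonempty ((Option κ × Fin d) ↪ J) := by
    rw [Function.Embedding.nonempty_iff_card_le]
    simp only [Fintype.card_prod, Fintype.card_option, Fintype.card_fin, Fintype.card_coe]
    calc (Fintype.card κ + 1) * d ≤ (Fintype.card κ + 1) * (3 * s) :=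
          Nat.mul_le_mul_left _ (by omega)
      _ = β₀ * s := by rw [hβ]; ring
      _ ≤ _ := hmany
  obtain ⟨f⟩ := hemb
  -- the transversal
  have hev : ∀ b, ∃ x, b ∈ J → x ∈ X ∧ q x 0 = b := by
    intro b
    by_cases hb : b ∈ J
    · obtain ⟨x, hx, hxb⟩ := mem_image.mp hb
      exact ⟨x, fun _ => ⟨hx, hxb⟩⟩
    · exact ⟨hne.choose, fun h => absurd h hb⟩
  choose ev hev using hev
  -- zero columns
  have hz : ∃ z : β → Option κ, ∀ p : Option κ × Fin d, z (f p : β) = p.1 := by
    refine ⟨fun b => if h : ∃ p, (f p : β) = b then h.choose.1 else none, fun p => ?_⟩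
    have h : ∃ p', (f p' : β) = (f p : β) := ⟨p, rfl⟩
    simp only [dif_pos h]
    have h2 := h.choose_spec
    have h3 : h.choose = p := f.injective (Subtype.ext h2)
    rw [h3]
  obtain ⟨z, hz⟩ := hz
  have hch : ∀ b : β, ∃ c : α → κ, ∀ v, Good k (shift q)
      (((X.filter (fun x => q x 0 = b)).filter (fun x => x ≠ ev b)).filter (fun x => c x = v)) :=
    fun b => ih _
  choose c hc using hch
  let col : α → Option κ := fun x => Equiv.swap none (z (q x 0)) (some (c (q x 0) x))
  let A : Option κ → ℕ := fun v => (X.filter (fun x => x ≠ ev (q x 0) ∧ col x = v)).card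
  let D : Option κ → ℕ := fun v => (Nat.sqrt (A v) + 1) ^ 2 - A v
  have hAD : ∀ v, A v + D v = (Nat.sqrt (A v) + 1) ^ 2 := by
    intro v
    have := Nat.lt_succ_sqrt' (A v)
    simp only [D]
    have h2 : (Nat.sqrt (A v)).succ ^ 2 = (Nat.sqrt (A v) + 1) ^ 2 := rfl
    omega
  have hDd : ∀ v, D v ≤ d := by
    intro v
    have h1 : A v ≤ X.card := card_filter_le _ _
    have h2 : Nat.sqrt (A v) ≤ s := Nat.sqrt_le_sqrt h1
    have h3 : (Nat.sqrt (A v)) ^ 2 ≤ A v := Nat.sqrt_le' _
    have := hAD v
    nlinarith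
  let ch : β → Prop := fun b => ∃ p : Option κ × Fin d, (f p : β) = b ∧ (p.2 : ℕ) < D p.1
  obtain ⟨u, hu⟩ := Col.zero q (X.filter (fun x => x = ev (q x 0) ∧ ¬ ch (q x 0)))
  refine ⟨fun x => if x = ev (q x 0) then
      (if ch (q x 0) then Sum.inl (z (q x 0)) else Sum.inr (u x)) else Sum.inl (col x), ?_⟩
  rintro (v | i)
  · set Cl := X.filter (fun x => (if x = ev (q x 0) then
      (if ch (q x 0) then Sum.inl (z (q x 0)) else Sum.inr (u x)) else Sum.inl (col x) :
        Option κ ⊕ Fin 4) = Sum.inl v) with hCl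
    have hmem : ∀ x, x ∈ Cl ↔ x ∈ X ∧ ((x = ev (q x 0) ∧ ch (q x 0) ∧ z (q x 0) = v) ∨
        (x ≠ ev (q x 0) ∧ col x = v)) := by
      intro x
      rw [hCl, mem_filter]
      by_cases h1 : x = ev (q x 0)
      · by_cases h2 : ch (q x 0)
        · rw [if_pos h1, if_pos h2, Sum.inl.injEq]
          exact ⟨fun h => ⟨h.1, Or.inl ⟨h1, h2, h.2⟩⟩,
            fun h => ⟨h.1, h.2.elim (fun h => h.2.2) (fun h => absurd h1 h.1)⟩⟩
        · rw [if_pos h1, if_neg h2]
          exact ⟨fun h => absurd h.2 (by simp),
            fun h => (h.2.elim (fun h => absurd h.2.1 h2) (fun h => absurd h1 h.1))⟩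
      · rw [if_neg h1, Sum.inl.injEq]
        exact ⟨fun h => ⟨h.1, Or.inr ⟨h1, h.2⟩⟩,
          fun h => ⟨h.1, h.2.elim (fun h => absurd h.1 h1) (fun h => h.2)⟩⟩
    have hgood : Good (k + 1) q Cl := by
      apply Good.succ
      · have h1 : Cl.card = (Cl.filter (fun x => x ≠ ev (q x 0))).card +
            (Cl.filter (fun x => ¬ x ≠ ev (q x 0))).card :=
          (card_filter_add_card_filter_not (s := Cl) (fun x => x ≠ ev (q x 0))).symm
        have h2 : (Cl.filter (fun x => x ≠ ev (q x 0))).card = A v := by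
          congr 1
          ext x
          simp only [mem_filter, hmem]
          tauto
        have h3 : (Cl.filter (fun x => ¬ x ≠ ev (q x 0))).card = D v := by
          have h4 : (univ.filter (fun i : Fin d => (i : ℕ) < D v)).card = D v := by
            have h5 := Fin.card_filter_val_lt (n := d) (m := D v)
            rw [min_eq_right (hDd v)] at h5
            convert h5
          rw [← h4]
          symm
          apply card_bij (fun i _ => ev (f (v, i) : β))
          · intro i hi
            have hfi := (f (v, i)).2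
            have he := hev _ hfi
            rw [mem_filter, hmem]
            have h6 : ev (f (v, i) : β) = ev (q (ev (f (v, i) : β)) 0) := by rw [he.2]
            refine ⟨⟨he.1, Or.inl ⟨h6, ?_, ?_⟩⟩, not_not.mpr h6⟩
            · rw [he.2]
              exact ⟨(v, i), rfl, (mem_filter.mp hi).2⟩
            · rw [he.2]
              exact hz (v, i)
          · intro i _ i' _ h
            have h1 := (hev _ (f (v, i)).2).2
            have h2 := (hev _ (f (v, i')).2).2
            rw [h, h2] at h1
            have h3 := f.injective (Subtype.ext h1)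
            exact (congrArg Prod.snd h3).symm
          · intro x hx
            rw [mem_filter, hmem, not_not] at hx
            obtain ⟨⟨hxX, h | h⟩, hxe⟩ := hx
            · obtain ⟨-, ⟨p, hp1, hp2⟩, hzv⟩ := h
              have h7 : z (q x 0) = p.1 := by rw [← hp1]; exact hz p
              obtain ⟨p1, p2⟩ := p
              simp only at h7 hp2
              have h8 : p1 = v := h7.symm.trans hzv
              subst h8
              refine ⟨p2, mem_filter.mpr ⟨mem_univ _, hp2⟩, ?_⟩
              rw [hp1]; exact hxe.symm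
            · exact absurd hxe h.1
        rw [h1, h2, h3, hAD v]
        exact ⟨Nat.sqrt (A v) + 1, by ring⟩
      · intro b
        by_cases hzb : z b = v
        · apply Good.of_card_le_one
          rw [card_le_one]
          have hall : ∀ x ∈ Cl.filter (fun x => q x 0 = b), x = ev b := by
            intro x hx
            rw [mem_filter, hmem] at hx
            obtain ⟨⟨hxX, h | h⟩, hxb⟩ := hx
            · rw [← hxb]; exact h.1
            · exfalso
              have h1 := h.2
              simp only [col] at h1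
              rw [hxb, hzb] at h1
              have h2 : Equiv.swap none v (some (c b x)) = Equiv.swap none v none := by
                rw [h1, Equiv.swap_apply_left]
              have h3 := (Equiv.swap none v).injective h2
              simp at h3
          intro x hx y hy
          rw [hall x hx, hall y hy]
        · -- a genuine column
          have hw : ∃ c0, Equiv.swap none (z b) v = some c0 := by
            rw [← Option.ne_none_iff_exists']
            intro h
            have h2 : Equiv.swap none (z b) v = Equiv.swap none (z b) (z b) := by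
              rw [h, Equiv.swap_apply_right]
            exact hzb ((Equiv.swap none (z b)).injective h2).symm
          obtain ⟨c0, hc0⟩ := hw
          convert hc b c0 using 1
          ext x
          simp only [mem_filter, hmem]
          constructor
          · rintro ⟨⟨hxX, h | h⟩, rfl⟩
            · exact absurd h.2.2 hzb
            · refine ⟨⟨⟨hxX, rfl⟩, h.1⟩, ?_⟩
              have h1 := h.2
              simp only [col] at h1
              rw [← h1, Equiv.swap_apply_self] at hc0
              simpa using hc0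
          · rintro ⟨⟨⟨hxX, rfl⟩, hxe⟩, hcx⟩
            refine ⟨⟨hxX, Or.inr ⟨hxe, ?_⟩⟩, rfl⟩
            simp only [col]
            rw [hcx, ← hc0, Equiv.swap_apply_self]
    convert hgood using 1
    rw [hCl]
    congr 1
  · set Cl := X.filter (fun x => (if x = ev (q x 0) then
      (if ch (q x 0) then Sum.inl (z (q x 0)) else Sum.inr (u x)) else Sum.inl (col x) :
        Option κ ⊕ Fin 4) = Sum.inr i) with hCl
    have hmem : ∀ x, x ∈ Cl ↔ x ∈ X ∧ (x = ev (q x 0) ∧ ¬ ch (q x 0) ∧ u x = i) := by
      intro x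
      rw [hCl, mem_filter]
      by_cases h1 : x = ev (q x 0)
      · by_cases h2 : ch (q x 0)
        · rw [if_pos h1, if_pos h2]
          exact ⟨fun h => absurd h.2 (by simp), fun h => absurd h2 h.2.2.1⟩
        · rw [if_pos h1, if_neg h2, Sum.inr.injEq]
          exact ⟨fun h => ⟨h.1, h1, h2, h.2⟩, fun h => ⟨h.1, h.2.2.2⟩⟩
      · rw [if_neg h1]
        exact ⟨fun h => absurd h.2 (by simp), fun h => absurd h.2.1 h1⟩
    have hgood : Good (k + 1) q Cl := by
      apply Good.succ
      · have := (hu i).isSquare_card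
        convert this using 2
        ext x
        rw [hmem]
        simp only [mem_filter]
        tauto
      · intro b
        apply Good.of_card_le_one
        rw [card_le_one]
        have hall : ∀ x ∈ Cl.filter (fun x => q x 0 = b), x = ev b := by
          intro x hx
          rw [mem_filter, hmem] at hx
          rw [← hx.2]; exact hx.1.2.1
        intro x hx y hy
        rw [hall x hx, hall y hy]
    convert hgood using 1
    rw [hCl]
    congr 1

/-- **Colouring core.** -/
theorem core (k : ℕ) : ∃ (κ : Type) (_ : Fintype κ) (_ : Nonempty κ),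
    ∀ (α : Type u) (β : Type v) (q : α → ℕ → β) (X : Finset α), Col k q X κ := by
  induction k with
  | zero => exact ⟨Fin 4, inferInstance, ⟨0⟩, fun α β q X => Col.zero q X⟩
  | succ k ih =>
    obtain ⟨κ, hκ1, hκ2, ih⟩ := ih
    set β₀ := 3 * (Fintype.card κ + 1) with hβ₀
    have hβ₀1 : 1 ≤ β₀ := by omega
    set m := 12 * 8 ^ k * β₀ with hm
    let I : Type := κ × (Fin m ⊕ Fin 4)
    have hIne : Nonempty I := by
      obtain ⟨a⟩ := hκ2
      exact ⟨(a, Sum.inr 0)⟩
    refine ⟨(I × κ) ⊕ (Option κ ⊕ Fin 4), inferInstance, ⟨Sum.inr (Sum.inr 0)⟩, ?_⟩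
    intro α β q X
    set J := X.image (fun x => q x 0) with hJ
    by_cases hsmallJ : J.card ≤ Fintype.card I
    · have h := Col.excl (k := k) (q := q) (X := X) (κ := κ) (I := I) hsmallJ
        (fun X' => ih α β (shift q) X')
      exact h.map Sum.inl Sum.inl_injective
    · push Not at hsmallJ
      let N : β → ℕ := fun b => (X.filter (fun x => q x 0 = b)).card
      obtain ⟨R, hRJ, hRc, hR⟩ := exists_top J N (Fintype.card I) hsmallJ.le
      have hRne : R.Nonempty := by
        rw [← card_pos, hRc]
        exact Fintype.card_pos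
      set X' := X.filter (fun x => q x 0 ∉ R) with hX'
      have hexcl : ∀ Y : Finset α, (∀ x ∈ Y, q x 0 ∈ R) → Col (k + 1) q Y (I × κ) := by
        intro Y hY
        apply Col.excl (κ := κ) (I := I) _ (fun X' => ih α β (shift q) X')
        rw [← hRc]
        apply card_le_card
        intro b hb
        obtain ⟨x, hx, rfl⟩ := mem_image.mp hb
        exact hY x hx
      by_cases hA : ∀ b ∈ R, X'.card < (β₀ * N b) ^ 2
      · obtain ⟨b0, hb0, hmin⟩ := exists_min_image R N hRne
        have hn0 : 1 ≤ N b0 := by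
          obtain ⟨x, hx, hxb⟩ := mem_image.mp (hRJ hb0)
          exact card_pos.mpr ⟨x, mem_filter.mpr ⟨hx, hxb⟩⟩
        obtain ⟨Z, hZX, hZ, hZR⟩ := caseA (k := k) (q := q) (X := X) (κ := κ) m β₀ (N b0)
          hm hβ₀1 R hRc hn0 hmin (hA b0 hb0) (fun X' => ih α β (shift q) X')
        have h1 := Col.union hZX hZ (hexcl (X \ Z) hZR)
        refine h1.map (Sum.elim (fun a => Sum.inr (Sum.inl (some a))) Sum.inl) ?_
        rintro (a | a) (b | b) h
        · simpa using h
        · simp at h
        · simp at h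
        · simpa using h
      · push Not at hA
        obtain ⟨b1, hb1, hb1N⟩ := hA
        have hX'ne : X'.Nonempty := by
          have : (J \ R).Nonempty := by
            rw [← card_pos, card_sdiff_of_subset hRJ]
            omega
          obtain ⟨b, hb⟩ := this
          rw [mem_sdiff] at hb
          obtain ⟨x, hx, hxb⟩ := mem_image.mp hb.1
          exact ⟨x, mem_filter.mpr ⟨hx, by rw [hxb]; exact hb.2⟩⟩
        have hsm : ∀ b ∈ X'.image (fun x => q x 0),
            (β₀ * (X'.filter (fun x => q x 0 = b)).card) ^ 2 ≤ X'.card := by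
          intro b hb
          obtain ⟨x, hx, rfl⟩ := mem_image.mp hb
          rw [hX', mem_filter] at hx
          have h1 : (X'.filter (fun y => q y 0 = q x 0)).card ≤ N (q x 0) :=
            card_le_card (filter_subset_filter _ (filter_subset _ _))
          have h2 : N (q x 0) ≤ N b1 :=
            hR b1 hb1 _ (mem_sdiff.mpr ⟨mem_image_of_mem _ hx.1, hx.2⟩)
          calc (β₀ * (X'.filter (fun y => q y 0 = q x 0)).card) ^ 2 ≤ (β₀ * N b1) ^ 2 :=
                Nat.pow_le_pow_left (Nat.mul_le_mul_left _ (h1.trans h2)) 2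
            _ ≤ X'.card := hb1N
        have hB := caseB (k := k) (q := q) (X := X') (κ := κ) β₀ hβ₀ hX'ne hsm
          (fun X' => ih α β (shift q) X')
        have h1 := Col.union (filter_subset _ _ : X' ⊆ X) hB (hexcl (X \ X') (by
          intro x hx
          rw [hX', mem_sdiff, mem_filter, not_and, not_not] at hx
          exact hx.2 hx.1))
        exact h1.map (Equiv.sumComm _ _) (Equiv.injective _)

end Pool.Agent.Helper81.Square
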