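import Mathlib

/-!
Definitions for the square colouring theorem (helper81).
-/

universe u

namespace Pool.Agent.Helper81.Square

/-- A square colouring: a proper colouring in which, for every vertex `v` and every colour `i`,
the number of neighbours of `v` with colour `i` is a perfect square (zero allowed). -/
def IsSquareColouring {V : Type u} (G : SimpleGraph V) {c : ℕ} (φ : V → Fin c) : Prop :=
  (∀ u w, G.Adj u w → φ u ≠ φ w) ∧
    ∀ v i, IsSquare (Set.ncard {w | G.Adj v w ∧ φ w = i})

/-- A planar graph: a graph with a drawing in the real plane, vertices being distinct points,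
edges being arcs (injective continuous images of the unit interval) joining their end vertices;
an arc meets the vertices and the arcs of the other edges only in its own end points. -/
def IsPlanar {V : Type u} (G : SimpleGraph V) : Prop :=
  ∃ (p : V → ℝ × ℝ) (γ : V → V → unitInterval → ℝ × ℝ), Function.Injective p ∧
    ∀ u v, G.Adj u v →
      Continuous (γ u v) ∧ Function.Injective (γ u v) ∧ γ u v 0 = p u ∧ γ u v 1 = p v ∧
      (∀ (w : V) (a : unitInterval), γ u v a = p w → a = 0 ∨ a = 1) ∧
      (∀ x y, G.Adj x y → s(u, v) ≠ s(x, y) →
        ∀ a b : unitInterval, γ u v a = γ x y b → a = 0 ∨ a = 1)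

/-- `G` has a `K_t` minor: there are `t` pairwise disjoint vertex sets, each inducing a connected
(in particular nonempty) subgraph, any two of them joined by an edge. -/
def HasCliqueMinor {V : Type u} (G : SimpleGraph V) (t : ℕ) : Prop :=
  ∃ B : Fin t → Set V, (∀ i, (G.induce (B i)).Connected) ∧
    (∀ i j, i ≠ j → Disjoint (B i) (B j)) ∧
    (∀ i j, i ≠ j → ∃ x ∈ B i, ∃ y ∈ B j, G.Adj x y)

/-- The graph has weak 2-colouring number at most `D + 1`: there is a linear order of the
vertices (given by an injective `ord`) such that for every `b` at most `D` vertices `a < b` are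
joined to `b` by a path of length at most two all of whose other vertices are larger than `a`. -/
def WeakTwoBound {V : Type u} (G : SimpleGraph V) (D : ℕ) : Prop :=
  ∃ ord : V → ℕ, Function.Injective ord ∧ ∀ b : V,
    Set.ncard {a | ord a < ord b ∧
      (G.Adj a b ∨ ∃ x, G.Adj a x ∧ G.Adj x b ∧ ord a < ord x)} ≤ D

end Pool.Agent.Helper81.Square
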