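import Pool.Agent.Helper81.Square.Planar
import Pool.Agent.Helper81.Square.Defs

/-!
A graph with a drawing in the plane has no `K_5` minor (helper81).
-/

open Complex

universe u v

namespace Pool.Agent.Helper81.Square

/-- the drawn image of a vertex set -/
def im {V : Type u} (G : SimpleGraph V) (p : V → ℂ) (γ : V → V → unitInterval → ℂ) (S : Set V) :
    Set ℂ :=
  {z | (∃ v ∈ S, z = p v) ∨ ∃ u ∈ S, ∃ v ∈ S, G.Adj u v ∧ ∃ a, z = γ u v a}

/-- drawings in `ℂ` -/
def Drawn {V : Type u} (G : SimpleGraph V) (p : V → ℂ) (γ : V → V → unitInterval → ℂ) : Prop :=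
  Function.Injective p ∧
    ∀ u v, G.Adj u v →
      Continuous (γ u v) ∧ γ u v 0 = p u ∧ γ u v 1 = p v ∧
      (∀ (w : V) (a : unitInterval), γ u v a = p w → a = 0 ∨ a = 1) ∧
      (∀ x y, G.Adj x y → s(u, v) ≠ s(x, y) →
        ∀ a b : unitInterval, γ u v a = γ x y b → a = 0 ∨ a = 1)

lemma im_disjoint {V : Type u} {G : SimpleGraph V} {p : V → ℂ} {γ : V → V → unitInterval → ℂ}
    (h : Drawn G p γ) {S S' : Set V} (hS : Disjoint S S') {z : ℂ} (hz : z ∈ im G p γ S)
    (hz' : z ∈ im G p γ S') : False := by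
  obtain ⟨hp, h⟩ := h
  -- a point of an arc of S which is a vertex point is a vertex point of S
  have hvert : ∀ u v, G.Adj u v → ∀ a w, γ u v a = p w → w = u ∨ w = v := by
    intro u v huv a w haw
    obtain ⟨-, h0, h1, hw, -⟩ := h u v huv
    rcases hw w a haw with rfl | rfl
    · left; exact hp (haw.symm.trans h0)
    · right; exact hp (haw.symm.trans h1)
  rcases hz with ⟨v, hv, rfl⟩ | ⟨u, hu, v, hv, huv, a, rfl⟩
  · rcases hz' with ⟨w, hw, hvw⟩ | ⟨x, hx, y, hy, hxy, b, hb⟩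
    · have := hp hvw
      subst this
      exact Set.disjoint_left.mp hS hv hw
    · rcases hvert x y hxy b v hb.symm with rfl | rfl
      · exact Set.disjoint_left.mp hS hv hx
      · exact Set.disjoint_left.mp hS hv hy
  · rcases hz' with ⟨w, hw, hvw⟩ | ⟨x, hx, y, hy, hxy, b, hb⟩
    · rcases hvert u v huv a w hvw with rfl | rfl
      · exact Set.disjoint_left.mp hS hu hw
      · exact Set.disjoint_left.mp hS hv hw
    · have hne : s(u, v) ≠ s(x, y) := by
        intro heq
        rw [Sym2.eq_iff] at heq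
        rcases heq with ⟨rfl, -⟩ | ⟨rfl, -⟩
        · exact Set.disjoint_left.mp hS hu hx
        · exact Set.disjoint_left.mp hS hu hy
      obtain ⟨-, h0, h1, -, hcross⟩ := h u v huv
      rcases hcross x y hxy hne a b hb with rfl | rfl
      · rw [h0] at hb
        rcases hvert x y hxy b u hb.symm with rfl | rfl
        · exact Set.disjoint_left.mp hS hu hx
        · exact Set.disjoint_left.mp hS hu hy
      · rw [h1] at hb
        rcases hvert x y hxy b v hb.symm with rfl | rfl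
        · exact Set.disjoint_left.mp hS hv hx
        · exact Set.disjoint_left.mp hS hv hy

lemma joinedIn_im {V : Type u} {G : SimpleGraph V} {p : V → ℂ} {γ : V → V → unitInterval → ℂ}
    (h : Drawn G p γ) {S : Set V} (hS : Cn G S) {a b : V} (ha : a ∈ S) (hb : b ∈ S) :
    JoinedIn (im G p γ S) (p a) (p b) := by
  have h1 := hS.2 a ha b hb
  clear hb
  induction h1 with
  | refl => exact JoinedIn.refl (Or.inl ⟨a, ha, rfl⟩)
  | @tail c d _ h2 ih =>
    refine ih.trans ?_
    obtain ⟨hcd, hc, hd⟩ := h2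
    obtain ⟨hcont, h0, h1, -, -⟩ := h.2 c d hcd
    refine ⟨⟨⟨γ c d, hcont⟩, h0, h1⟩, fun t => ?_⟩
    exact Or.inr ⟨c, hc, d, hd, hcd, t, rfl⟩

lemma im_mono {V : Type u} {G : SimpleGraph V} {p : V → ℂ} {γ : V → V → unitInterval → ℂ}
    {S S' : Set V} (h : S ⊆ S') : im G p γ S ⊆ im G p γ S' := by
  rintro z (⟨v, hv, rfl⟩ | ⟨u, hu, v, hv, huv, a, rfl⟩)
  · exact Or.inl ⟨v, h hv, rfl⟩
  · exact Or.inr ⟨u, h hu, v, h hv, huv, a, rfl⟩

lemma cn_union {V : Type u} {G : SimpleGraph V} {S S' : Set V} (hS : Cn G S) (hS' : Cn G S')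
    {x y : V} (hx : x ∈ S) (hy : y ∈ S') (hxy : G.Adj x y) : Cn G (S ∪ S') := by
  have m1 : ∀ a ∈ S, ∀ b ∈ S,
      Relation.ReflTransGen (fun x y => G.Adj x y ∧ x ∈ S ∪ S' ∧ y ∈ S ∪ S') a b := by
    intro a ha b hb
    have h := hS.2 a ha b hb
    clear hb
    induction h with
    | refl => exact Relation.ReflTransGen.refl
    | tail _ h2 ih => exact ih.tail ⟨h2.1, Or.inl h2.2.1, Or.inl h2.2.2⟩
  have m2 : ∀ a ∈ S', ∀ b ∈ S',
      Relation.ReflTransGen (fun x y => G.Adj x y ∧ x ∈ S ∪ S' ∧ y ∈ S ∪ S') a b := by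
    intro a ha b hb
    have h := hS'.2 a ha b hb
    clear hb
    induction h with
    | refl => exact Relation.ReflTransGen.refl
    | tail _ h2 ih => exact ih.tail ⟨h2.1, Or.inr h2.2.1, Or.inr h2.2.2⟩
  refine ⟨⟨x, Or.inl hx⟩, ?_⟩
  rintro a (ha | ha) b (hb | hb)
  · exact m1 a ha b hb
  · exact ((m1 a ha x hx).tail ⟨hxy, Or.inl hx, Or.inr hy⟩).trans (m2 y hy b hb)
  · exact ((m2 a ha y hy).tail ⟨hxy.symm, Or.inr hy, Or.inl hx⟩).trans (m1 x hx b hb)
  · exact m2 a ha b hb

theorem no_k5_of_drawn {V : Type u} {G : SimpleGraph V} {p : V → ℂ}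
    {γ : V → V → unitInterval → ℂ} (h : Drawn G p γ) : ¬ CMOn G Set.univ 5 := by
  rintro ⟨B, -, hB, hBd, hBa⟩
  choose r hr using fun i => (hB i).1
  have hr_ne : ∀ i j, i ≠ j → r i ≠ r j := by
    intro i j hij heq
    exact Set.disjoint_left.mp (hBd i j hij) (hr i) (heq ▸ hr j)
  have hcn : ∀ i j, i ≠ j → Cn G (B i ∪ B j) := by
    intro i j hij
    obtain ⟨x, hx, y, hy, hxy⟩ := hBa i j hij
    exact cn_union (hB i) (hB j) hx hy hxy
  have hj : ∀ i j : Fin 5, ∃ q : ℝ → ℂ, i < j → Continuous q ∧ q 0 = p (r i) ∧ q 1 = p (r j) ∧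
      ∀ t, q t ∈ im G p γ (B i ∪ B j) := by
    intro i j
    by_cases hij : i < j
    · obtain ⟨P, hP⟩ := joinedIn_im h (hcn i j hij.ne) (Or.inl (hr i)) (Or.inr (hr j))
      refine ⟨P.extend, fun _ => ⟨P.continuous_extend, P.extend_zero, P.extend_one, ?_⟩⟩
      intro t
      have : P.extend t ∈ Set.range P := by
        rw [← P.extend_range]
        exact ⟨t, rfl⟩
      obtain ⟨s, hs⟩ := this
      rw [← hs]
      exact hP s
    · exact ⟨fun _ => 0, fun h' => absurd h' hij⟩
  choose g hg using hj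
  have hdis : ∀ i j k l : Fin 5, i ≠ k → i ≠ l → j ≠ k → j ≠ l →
      Disjoint (B i ∪ B j) (B k ∪ B l) := by
    intro i j k l h1 h2 h3 h4
    rw [Set.disjoint_union_left, Set.disjoint_union_right, Set.disjoint_union_right]
    exact ⟨⟨hBd i k h1, hBd i l h2⟩, ⟨hBd j k h3, hBd j l h4⟩⟩
  refine k5_false (fun i => p (r i)) ?_ g (fun i j hij => (hg i j hij).1)
    (fun i j hij => (hg i j hij).2.1) (fun i j hij => (hg i j hij).2.2.1) ?_ ?_
  · intro i j hij
    by_contra hne
    exact hr_ne i j hne (h.1 hij)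
  · intro i k l hkl hik hil t heq
    refine im_disjoint h (hdis i i k l hik hil hik hil) (z := p (r i)) ?_ ?_
    · exact Or.inl ⟨r i, Or.inl (hr i), rfl⟩
    · have := (hg k l hkl).2.2.2 t
      rw [heq] at this
      exact this
  · intro i j k l hij hkl hik hil hjk hjl s t heq
    refine im_disjoint h (hdis i j k l hik hil hjk hjl) ((hg i j hij).2.2.2 s) ?_
    rw [heq]
    exact (hg k l hkl).2.2.2 t

theorem no_k5_of_isPlanar {V : Type u} {G : SimpleGraph V} (h : IsPlanar G) :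
    ¬ CMOn G Set.univ 5 := by
  obtain ⟨p, γ, hp, h⟩ := h
  let e : ℝ × ℝ → ℂ := fun z => Complex.equivRealProdCLM.symm z
  have hec : Continuous e := Complex.equivRealProdCLM.symm.continuous
  have hei : Function.Injective e := Complex.equivRealProdCLM.symm.injective
  refine no_k5_of_drawn (p := fun v => e (p v)) (γ := fun u v t => e (γ u v t)) ⟨?_, ?_⟩
  · exact hei.comp hp
  · intro u v huv
    obtain ⟨h1, -, h2, h3, h4, h5⟩ := h u v huv
    refine ⟨hec.comp h1, by simp only [h2], by simp only [h3], ?_, ?_⟩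
    · intro w a haw
      exact h4 w a (hei haw)
    · intro x y hxy hne a b hab
      exact h5 x y hxy hne a b (hei hab)

end Pool.Agent.Helper81.Square
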