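import Pool.Agent.Helper81.Square.Colour
import Pool.Agent.Helper81.Square.Drawing

/-!
Square colourings: graphs with bounded weak 2-colouring number, graphs without a clique minor,
planar graphs (helper81).
-/

open Finset Classical

namespace Pool.Agent.Helper81.Square

/-- bounded weak 2-colouring number gives square colourings -/
theorem of_weakTwo (D : ℕ) : ∃ c : ℕ, ∀ (V : Type) [Fintype V] (G : SimpleGraph V),
    WeakTwoBound G D → ∃ φ : V → Fin c, IsSquareColouring G φ := by
  obtain ⟨κ, hκ1, hκ2, hκ⟩ := core.{0, 0} D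
  refine ⟨Fintype.card (Pal D κ), ?_⟩
  intro V _ G hG
  obtain ⟨ord, hinj, hD⟩ := hG
  have hback : ∀ b, (back G ord b).card ≤ D := by
    intro b
    have h1 := hD b
    rw [← Set.ncard_coe_finset]
    convert h1 using 2
    ext a
    simp [back]
  obtain ⟨φ, h1, h2⟩ := exists_colouring_of_order D κ hκ G ord hinj hback
  let e := Fintype.equivFin (Pal D κ)
  refine ⟨fun v => e (φ v), ?_, ?_⟩
  · intro u w huw h
    exact h1 u w huw (e.injective h)
  · intro v i
    have h3 := h2 v (e.symm i)
    rw [← Set.ncard_coe_finset] at h3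
    convert h3 using 2
    ext w
    simp only [Set.mem_ofPred_eq, coe_filter, mem_univ, true_and, and_congr_right_iff]
    intro _
    exact Equiv.eq_symm_apply e |>.symm

/-- graphs without a clique minor have bounded weak 2-colouring number -/
theorem weakTwo_of_minor (t : ℕ) (V : Type) [Fintype V] (G : SimpleGraph V)
    (hG : ¬ CMOn G Set.univ t) : WeakTwoBound G (DD t) := by
  obtain ⟨ord, hinj, hD⟩ := exists_order G t hG
  refine ⟨ord, hinj, fun b => ?_⟩
  have h1 := hD b
  rw [← Set.ncard_coe_finset] at h1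
  convert h1 using 2
  ext a
  simp [back]

theorem cmOn_iff {V : Type} (G : SimpleGraph V) (t : ℕ) :
    CMOn G Set.univ t ↔ HasCliqueMinor G t := by
  constructor
  · rintro ⟨B, -, h1, h2, h3⟩
    exact ⟨B, fun i => (cn_iff G _).mp (h1 i), h2, h3⟩
  · rintro ⟨B, h1, h2, h3⟩
    exact ⟨B, fun i => Set.subset_univ _, fun i => (cn_iff G _).mpr (h1 i), h2, h3⟩

/-- planar graphs have bounded weak 2-colouring number -/
theorem weakTwo_of_planar (V : Type) [Fintype V] (G : SimpleGraph V) (hG : IsPlanar G) :
    WeakTwoBound G (DD 5) :=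
  weakTwo_of_minor 5 V G (no_k5_of_isPlanar hG)

end Pool.Agent.Helper81.Square
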