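import Pool.Agent.Helper81.Square.Minor

/-!
A graph drawn in the plane has no `K_5` minor (helper81).  Proof by continuous logarithms
(van Kampen obstruction), no Jordan curve theorem needed.
-/

open Complex

universe u v

namespace Pool.Agent.Helper81.Square

lemma exists_lift {A : Type} [TopologicalSpace A] [SimplyConnectedSpace A]
    [LocallyPathConnectedSpace A] [Nonempty A] (F : A → ℂ) (hF : Continuous F)
    (hF0 : ∀ a, F a ≠ 0) : ∃ L : A → ℂ, Continuous L ∧ ∀ a, exp (L a) = F a := by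
  obtain ⟨a0⟩ := ‹Nonempty A›
  rcases isCoveringMapOn_exp.existsUnique_continuousMap_lifts
    ⟨F, hF⟩ (a₀ := a0) (exp_log (hF0 a0)) (fun a => hF0 a) with ⟨f, ⟨-, hf⟩, -⟩
  exact ⟨f, f.continuous, fun a => congrFun hf a⟩

lemma lift_unique (h : ℝ → ℂ) (hc : Continuous h) (h0 : ∀ t, h t ≠ 0) (L L' : ℝ → ℂ)
    (hL : Continuous L) (hL' : Continuous L') (hLe : ∀ t, exp (L t) = h t)
    (hLe' : ∀ t, exp (L' t) = h t) : L 1 - L 0 = L' 1 - L' 0 := by
  have hu := isCoveringMapOn_exp.existsUnique_continuousMap_lifts (A := ℝ)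
    ⟨h, hc⟩ (a₀ := (0 : ℝ)) (e₀ := L' 0) (hLe' 0) (fun a => h0 a)
  have h1 : exp (L' 0 - L 0) = 1 := by
    rw [exp_sub, hLe, hLe', div_self (h0 0)]
  have h2 := hu.unique (y₁ := ⟨L', hL'⟩) (y₂ := ⟨fun t => L t + (L' 0 - L 0), by fun_prop⟩)
    ⟨rfl, funext fun t => hLe' t⟩ ⟨by simp, funext fun t => by
      simp only [ContinuousMap.coe_mk, Function.comp_apply]
      rw [exp_add, h1, mul_one, hLe]⟩
  have h3 := congrArg (fun f : C(ℝ, ℂ) => f 1) h2
  simp only [ContinuousMap.coe_mk] at h3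
  rw [h3]; ring

/-- total change of the logarithm along `h` from `0` to `1` -/
noncomputable def incr (h : ℝ → ℂ) : ℂ := by
  classical
  exact if H : ∃ L : ℝ → ℂ, Continuous L ∧ ∀ a, exp (L a) = h a then
    H.choose 1 - H.choose 0 else 0

lemma incr_eq {h : ℝ → ℂ} {L : ℝ → ℂ} (hL : Continuous L) (hLe : ∀ t, exp (L t) = h t) :
    incr h = L 1 - L 0 := by
  have hc : Continuous h := by
    have : h = fun t => exp (L t) := funext fun t => (hLe t).symm
    rw [this]; fun_prop
  have h0 : ∀ t, h t ≠ 0 := fun t => by rw [← hLe]; exact exp_ne_zero _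
  have H : ∃ L : ℝ → ℂ, Continuous L ∧ ∀ a, exp (L a) = h a := ⟨L, hL, hLe⟩
  rw [incr, dif_pos H]
  exact lift_unique h hc h0 _ _ H.choose_spec.1 hL H.choose_spec.2 hLe

lemma incr_int {h : ℝ → ℂ} (hc : Continuous h) (h0 : ∀ t, h t ≠ 0) :
    ∃ n : ℤ, incr h = log (h 1) - log (h 0) + n * (2 * Real.pi * I) := by
  obtain ⟨L, hL, hLe⟩ := exists_lift h hc h0
  rw [incr_eq hL hLe]
  have : exp (L 1 - L 0) = exp (log (h 1) - log (h 0)) := by
    rw [exp_sub, exp_sub, exp_log (h0 1), exp_log (h0 0), hLe, hLe]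
  exact exp_eq_exp_iff_exists_int.mp this

lemma exp_add_pi_I (z : ℂ) : exp (z + Real.pi * I) = -exp z := by
  rw [exp_add, exp_pi_mul_I, mul_neg_one]

/-- the square relation -/
lemma square_rel (γ δ : ℝ → ℂ) (hγ : Continuous γ) (hδ : Continuous δ)
    (hne : ∀ s t, γ s ≠ δ t) :
    incr (fun t => δ t - γ 0) - incr (fun t => δ t - γ 1) + incr (fun s => γ s - δ 1) -
      incr (fun s => γ s - δ 0) = 0 := by
  obtain ⟨L, hL, hLe⟩ := exists_lift (A := ℝ × ℝ) (fun p => δ p.2 - γ p.1) (by fun_prop)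
    (fun p => sub_ne_zero.mpr (hne _ _).symm)
  have e1 : incr (fun t => δ t - γ 0) = L (0, 1) - L (0, 0) :=
    incr_eq (L := fun t => L (0, t)) (by fun_prop) (fun t => hLe (0, t))
  have e2 : incr (fun t => δ t - γ 1) = L (1, 1) - L (1, 0) :=
    incr_eq (L := fun t => L (1, t)) (by fun_prop) (fun t => hLe (1, t))
  have e3 : incr (fun s => γ s - δ 1) = (L (1, 1) + Real.pi * I) - (L (0, 1) + Real.pi * I) :=
    incr_eq (L := fun s => L (s, 1) + Real.pi * I) (by fun_prop) (fun s => by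
      rw [exp_add_pi_I, hLe]; ring)
  have e4 : incr (fun s => γ s - δ 0) = (L (1, 0) + Real.pi * I) - (L (0, 0) + Real.pi * I) :=
    incr_eq (L := fun s => L (s, 0) + Real.pi * I) (by fun_prop) (fun s => by
      rw [exp_add_pi_I, hLe]; ring)
  rw [e1, e2, e3, e4]
  ring

lemma log_neg_rel {z : ℂ} (hz : z ≠ 0) :
    ∃ m : ℤ, log z - log (-z) = (2 * m + 1 : ℤ) * (Real.pi * I) := by
  have h : exp (log z) = exp (log (-z) + Real.pi * I) := by
    rw [exp_add_pi_I, exp_log hz, exp_log (neg_ne_zero.mpr hz), neg_neg]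
  obtain ⟨n, hn⟩ := exp_eq_exp_iff_exists_int.mp h
  refine ⟨n, ?_⟩
  rw [hn]
  push_cast
  ring

/-- no continuous map of `K_5` to the plane separates disjoint edges -/
theorem k5_false (p : Fin 5 → ℂ) (hp : Function.Injective p) (g : Fin 5 → Fin 5 → ℝ → ℂ)
    (hc : ∀ i j, i < j → Continuous (g i j)) (h0 : ∀ i j, i < j → g i j 0 = p i)
    (h1 : ∀ i j, i < j → g i j 1 = p j)
    (hnv : ∀ i k l, k < l → i ≠ k → i ≠ l → ∀ t, g k l t ≠ p i)
    (hdisj : ∀ i j k l, i < j → k < l → i ≠ k → i ≠ l → j ≠ k → j ≠ l →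
      ∀ s t, g i j s ≠ g k l t) : False := by
  -- integers n
  have hn : ∀ i k l : Fin 5, ∃ n : ℤ, k < l → i ≠ k → i ≠ l →
      incr (fun t => g k l t - p i) =
        log (p l - p i) - log (p k - p i) + n * (2 * Real.pi * I) := by
    intro i k l
    by_cases h : k < l ∧ i ≠ k ∧ i ≠ l
    · obtain ⟨h2, h3, h4⟩ := h
      obtain ⟨n, hn⟩ := incr_int (h := fun t => g k l t - p i)
        ((hc k l h2).sub continuous_const) (fun t => sub_ne_zero.mpr (hnv i k l h2 h3 h4 t))
      refine ⟨n, fun _ _ _ => ?_⟩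
      rw [hn]
      simp only [h0 k l h2, h1 k l h2]
    · exact ⟨0, fun h2 h3 h4 => absurd ⟨h2, h3, h4⟩ h⟩
  choose n hn using hn
  have hm : ∀ i j : Fin 5, ∃ m : ℤ, i ≠ j →
      log (p j - p i) - log (p i - p j) = (2 * m + 1 : ℤ) * (Real.pi * I) := by
    intro i j
    by_cases h : i = j
    · exact ⟨0, fun h' => absurd h h'⟩
    · obtain ⟨m, hm⟩ := log_neg_rel (z := p j - p i)
        (sub_ne_zero.mpr (fun h' => h (hp h').symm))
      refine ⟨m, fun _ => ?_⟩
      rw [neg_sub] at hm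
      exact hm
  choose m hm using hm
  have hpi : (Real.pi * I : ℂ) ≠ 0 := mul_ne_zero (by exact_mod_cast Real.pi_ne_zero) I_ne_zero
  have key : ∀ i j k l : Fin 5, i < j → k < l → i ≠ k → i ≠ l → j ≠ k → j ≠ l →
      2 * (n i k l - n j k l + n l i j - n k i j) + (2 * m i l + 1) - (2 * m i k + 1) -
        (2 * m j l + 1) + (2 * m j k + 1) = 0 := by
    intro i j k l hij hkl hik hil hjk hjl
    have hs := square_rel (g i j) (g k l) (hc i j hij) (hc k l hkl)
      (hdisj i j k l hij hkl hik hil hjk hjl)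
    rw [h0 i j hij, h1 i j hij, h0 k l hkl, h1 k l hkl] at hs
    rw [hn i k l hkl hik hil, hn j k l hkl hjk hjl, hn l i j hij hil.symm hjl.symm,
      hn k i j hij hik.symm hjk.symm] at hs
    have m1 := hm i l hil
    have m2 := hm i k hik
    have m3 := hm j l hjl
    have m4 := hm j k hjk
    have : ((2 * (n i k l - n j k l + n l i j - n k i j) + (2 * m i l + 1) - (2 * m i k + 1) -
        (2 * m j l + 1) + (2 * m j k + 1) : ℤ) : ℂ) * (Real.pi * I) = 0 := by
      push_cast at m1 m2 m3 m4 ⊢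
      linear_combination hs - m1 + m2 + m3 - m4
    have h2 := (mul_eq_zero.mp this).resolve_right hpi
    exact_mod_cast h2
  have hanti : ∀ i j : Fin 5, i ≠ j → 2 * m j i + 1 = -(2 * m i j + 1) := by
    intro i j hij
    have e1 := hm i j hij
    have e2 := hm j i hij.symm
    have : ((2 * m j i + 1 + (2 * m i j + 1) : ℤ) : ℂ) * (Real.pi * I) = 0 := by
      push_cast at e1 e2 ⊢
      linear_combination - e1 - e2
    have h2 := (mul_eq_zero.mp this).resolve_right hpi
    have h3 : 2 * m j i + 1 + (2 * m i j + 1) = 0 := by exact_mod_cast h2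
    omega
  have quad : ∀ a b c d : Fin 5, a < b → b < c → c < d →
      (n a c d - n b c d + n d a b - n c a b) + (n a b d - n c b d + n d a c - n b a c) +
      (n a b c - n d b c + n c a d - n b a d) + (2 * m a d + 1) - (2 * m a b + 1) -
      (2 * m b d + 1) = 0 := by
    intro a b c d hab hbc hcd
    have hac := hab.trans hbc
    have hbd := hbc.trans hcd
    have had := hac.trans hcd
    have k1 := key a b c d hab hcd hac.ne had.ne hbc.ne hbd.ne
    have k2 := key a c b d hac hbd hab.ne had.ne hbc.ne' hcd.ne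
    have k3 := key a d b c had hbc hab.ne hac.ne hbd.ne' hcd.ne'
    have a1 := hanti b c hbc.ne
    have a2 := hanti c d hcd.ne
    have a3 := hanti b d hbd.ne
    omega
  have q1 := quad 0 1 2 3 (by decide) (by decide) (by decide)
  have q2 := quad 0 1 2 4 (by decide) (by decide) (by decide)
  have q3 := quad 0 1 3 4 (by decide) (by decide) (by decide)
  have q4 := quad 0 2 3 4 (by decide) (by decide) (by decide)
  have q5 := quad 1 2 3 4 (by decide) (by decide) (by decide)
  omega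

end Pool.Agent.Helper81.Square
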