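import Mathlib

/-!
Tree core for the square colouring theorem (helper81).

`Good k q S`: every node of the depth `k` tree (nodes are prefixes of the label
sequence `q x`) contains a square number of elements of `S`.
-/

open Finset Classical

namespace Pool.Agent.Helper81.Square

variable {α β : Type*}

/-- every node of depth at most `k` contains a square number of elements of `S` -/
def Good (k : ℕ) (q : α → ℕ → β) (S : Finset α) : Prop :=
  ∀ j ≤ k, ∀ b : ℕ → β, IsSquare ((S.filter (fun x => ∀ i < j, q x i = b i)).card)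

/-- drop the first label -/
def shift (q : α → ℕ → β) : α → ℕ → β := fun x i => q x (i + 1)

lemma isSquare_of_le_one {n : ℕ} (h : n ≤ 1) : IsSquare n := by
  interval_cases n
  · exact ⟨0, rfl⟩
  · exact ⟨1, rfl⟩

lemma Good.of_card_le_one {k : ℕ} {q : α → ℕ → β} {S : Finset α} (h : S.card ≤ 1) :
    Good k q S := by
  intro j _ b
  exact isSquare_of_le_one ((card_filter_le _ _).trans h)

lemma Good.empty (k : ℕ) (q : α → ℕ → β) : Good k q ∅ :=
  Good.of_card_le_one (by simp)

lemma Good.isSquare_card {k : ℕ} {q : α → ℕ → β} {S : Finset α} (h : Good k q S) :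
    IsSquare S.card := by
  rcases S.eq_empty_or_nonempty with rfl | ⟨x, hx⟩
  · exact ⟨0, rfl⟩
  · have := h 0 (Nat.zero_le _) (q x)
    simpa using this

lemma Good.succ {k : ℕ} {q : α → ℕ → β} {S : Finset α} (h0 : IsSquare S.card)
    (h : ∀ b, Good k (shift q) (S.filter (fun x => q x 0 = b))) : Good (k + 1) q S := by
  intro j hj b
  rcases j with _ | j
  · simpa using h0
  · have := h (b 0) j (by omega) (fun i => b (i + 1))
    rw [filter_filter] at this
    convert this using 3 with x
    constructor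
    · intro hx
      exact ⟨hx 0 (by omega), fun i hi => hx (i + 1) (by omega)⟩
    · rintro ⟨hx0, hx⟩ i hi
      rcases i with _ | i
      · exact hx0
      · exact hx i (by omega)

/-- top sets -/
lemma exists_top (J : Finset β) (N : β → ℕ) (L : ℕ) (hL : L ≤ J.card) :
    ∃ R ⊆ J, R.card = L ∧ ∀ i ∈ R, ∀ j ∈ J \ R, N j ≤ N i := by
  induction L with
  | zero => exact ⟨∅, by simp, by simp, by simp⟩
  | succ L ih =>
    obtain ⟨R, hRJ, hRc, hR⟩ := ih (by omega)
    have hne : (J \ R).Nonempty := by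
      rw [← card_pos, card_sdiff_of_subset hRJ]
      omega
    obtain ⟨m, hm, hmax⟩ := exists_max_image (J \ R) N hne
    rw [mem_sdiff] at hm
    refine ⟨insert m R, insert_subset hm.1 hRJ, by rw [card_insert_of_notMem hm.2, hRc], ?_⟩
    intro i hi j hj
    rw [mem_sdiff, mem_insert, not_or] at hj
    rcases mem_insert.mp hi with rfl | hi
    · exact hmax j (mem_sdiff.mpr ⟨hj.1, hj.2.2⟩)
    · exact hR i hi j (mem_sdiff.mpr ⟨hj.1, hj.2.2⟩)

/-- the greedy unit for a child of size `N` -/
def gr (K N : ℕ) : ℕ := max 1 (Nat.sqrt (N / K))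

lemma one_le_gr (K N : ℕ) : 1 ≤ gr K N := le_max_left _ _

lemma gr_feas {K N : ℕ} {x : ℕ} (hx : x ≤ gr K N) : x ≤ 1 ∨ K * x ^ 2 ≤ N := by
  unfold gr at hx
  by_cases h1 : x ≤ 1
  · exact Or.inl h1
  · right
    have h2 : x ≤ Nat.sqrt (N / K) := by
      rcases le_max_iff.mp hx with h | h
      · exact absurd h h1
      · exact h
    have h3 : x * x ≤ N / K := Nat.le_sqrt.mp h2
    have h4 : K * (x * x) ≤ N := by
      calc K * (x * x) ≤ K * (N / K) := Nat.mul_le_mul_left _ h3
        _ ≤ N := Nat.mul_div_le N K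
    nlinarith

lemma le_gr {K N : ℕ} (hK : 0 < K) : N ≤ 4 * K * (gr K N) ^ 2 := by
  unfold gr
  by_cases h : N < K
  · have : (1:ℕ) ≤ (max 1 (Nat.sqrt (N / K))) ^ 2 := Nat.one_le_pow _ _ (by positivity)
    nlinarith
  · push Not at h
    have h1 : 1 ≤ N / K := (Nat.one_le_div_iff hK).mpr h
    have h2 : 1 ≤ Nat.sqrt (N / K) := by
      rw [Nat.le_sqrt]; simpa using h1
    rw [max_eq_right h2]
    have h3 : N / K < (Nat.sqrt (N / K) + 1) ^ 2 := Nat.lt_succ_sqrt' _
    set s := Nat.sqrt (N / K) with hs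
    have h4 : N < K * (N / K + 1) := by
      have := Nat.lt_div_mul_add (a := N) hK
      nlinarith
    have h5 : N / K + 1 ≤ (s + 1) ^ 2 := h3
    have h6 : (s + 1) ^ 2 ≤ 4 * s ^ 2 := by nlinarith
    calc N ≤ K * (N / K + 1) := h4.le
      _ ≤ K * (4 * s ^ 2) := Nat.mul_le_mul_left _ (h5.trans h6)
      _ = 4 * K * s ^ 2 := by ring

/-- Numerical selection lemma. -/
lemma exists_select (J : Finset β) (N : β → ℕ) (K a : ℕ) (hK : 0 < K)
    (hsum : 8 * K * a ^ 2 ≤ ∑ b ∈ J, N b) :
    ∃ x : β → ℕ, (∀ b ∈ J, x b ≤ 1 ∨ K * (x b) ^ 2 ≤ N b) ∧ ∑ b ∈ J, (x b) ^ 2 = a ^ 2 := by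
  by_cases ha : a = 0
  · subst ha
    exact ⟨fun _ => 0, by simp, by simp⟩
  have ha1 : 1 ≤ a ^ 2 := Nat.one_le_pow _ _ (Nat.pos_of_ne_zero ha)
  by_cases hbig : ∃ b ∈ J, K * a ^ 2 ≤ N b
  · obtain ⟨b, hb, hbN⟩ := hbig
    refine ⟨fun c => if c = b then a else 0, ?_, ?_⟩
    · intro c _
      by_cases hc : c = b
      · subst hc; right; simpa using hbN
      · left; simp [hc]
    · rw [sum_eq_single_of_mem b hb]
      · simp
      · intro c _ hc; simp [hc]
  · push Not at hbig
    have hcard : 4 ≤ J.card := by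
      by_contra hlt
      have h1 : ∑ b ∈ J, N b ≤ J.card * (K * a ^ 2) := by
        rw [← smul_eq_mul, ← sum_const]
        exact sum_le_sum fun b hb => (hbig b hb).le
      have h2 : J.card * (K * a ^ 2) ≤ 3 * (K * a ^ 2) := Nat.mul_le_mul_right _ (by omega)
      have h3 : 0 < K * a ^ 2 := by positivity
      nlinarith
    obtain ⟨R, hRJ, hRc, hR⟩ := exists_top J N 4 hcard
    have hRsum : ∑ b ∈ R, N b ≤ 4 * (K * a ^ 2) := by
      rw [← hRc, ← smul_eq_mul, ← sum_const]
      exact sum_le_sum fun b hb => (hbig b (hRJ hb)).le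
    have hsplit : ∑ b ∈ J \ R, N b + ∑ b ∈ R, N b = ∑ b ∈ J, N b := sum_sdiff hRJ
    have hRlt : ∑ b ∈ R, N b < 4 * (K * a ^ 2) := by
      have hRne : R.Nonempty := by rw [← card_pos]; omega
      rw [← hRc, ← smul_eq_mul, ← sum_const]
      exact sum_lt_sum_of_nonempty hRne fun b hb => hbig b (hRJ hb)
    have hg : ∑ b ∈ J \ R, N b ≤ 4 * K * ∑ b ∈ J \ R, (gr K (N b)) ^ 2 := by
      rw [mul_sum]
      exact sum_le_sum fun b _ => le_gr hK
    have hlt : a ^ 2 < ∑ b ∈ J \ R, (gr K (N b)) ^ 2 := by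
      by_contra hle
      push Not at hle
      have : 4 * K * ∑ b ∈ J \ R, (gr K (N b)) ^ 2 ≤ 4 * K * a ^ 2 := Nat.mul_le_mul_left _ hle
      nlinarith
    -- maximal subset
    obtain ⟨M, hM, hMmax⟩ := exists_max_image
      ((J \ R).powerset.filter (fun M => ∑ b ∈ M, (gr K (N b)) ^ 2 ≤ a ^ 2)) Finset.card
      ⟨∅, by simp⟩
    rw [mem_filter, mem_powerset] at hM
    have hex : ∃ j ∈ J \ R, j ∉ M := by
      by_contra hno
      push Not at hno
      have : M = J \ R := Subset.antisymm hM.1 hno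
      rw [this] at hM
      omega
    obtain ⟨j, hj, hjM⟩ := hex
    have hjsum : a ^ 2 < ∑ b ∈ M, (gr K (N b)) ^ 2 + (gr K (N j)) ^ 2 := by
      by_contra hle
      push Not at hle
      have := hMmax (insert j M) (by
        rw [mem_filter, mem_powerset]
        refine ⟨insert_subset hj hM.1, ?_⟩
        rw [sum_insert hjM]; omega)
      rw [card_insert_of_notMem hjM] at this
      omega
    obtain ⟨r, hr⟩ := Nat.exists_eq_add_of_le hM.2
    have hrlt : r < (gr K (N j)) ^ 2 := by omega
    obtain ⟨y0, y1, y2, y3, hy⟩ := Nat.sum_four_squares r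
    -- index the reserved children by Fin 4
    let e : R ≃ Fin 4 := R.equivFinOfCardEq hRc
    let y : Fin 4 → ℕ := ![y0, y1, y2, y3]
    have hysum : ∑ i, (y i) ^ 2 = r := by
      simp [Fin.sum_univ_four, y, ← hy]
    have hyle : ∀ i, y i ≤ gr K (N j) := by
      intro i
      have h1 : (y i) ^ 2 ≤ r := by
        rw [← hysum]
        exact single_le_sum (f := fun i => (y i) ^ 2) (fun _ _ => Nat.zero_le _) (mem_univ i)
      by_contra hgt
      push Not at hgt
      have : (gr K (N j)) ^ 2 ≤ (y i) ^ 2 := Nat.pow_le_pow_left hgt.le 2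
      omega
    refine ⟨fun b => if hb : b ∈ R then y (e ⟨b, hb⟩) else if b ∈ M then gr K (N b) else 0,
      ?_, ?_⟩
    · intro b hb
      by_cases hbR : b ∈ R
      · simp only [hbR, dite_true]
        rcases gr_feas (hyle (e ⟨b, hbR⟩)) with h | h
        · exact Or.inl h
        · exact Or.inr (h.trans (hR b hbR j hj))
      · by_cases hbM : b ∈ M
        · simp only [hbR, dite_false, hbM, if_true]
          exact gr_feas le_rfl
        · simp [hbR, hbM]
    · rw [← sum_sdiff hRJ]
      have h1 : ∑ b ∈ J \ R, (if hb : b ∈ R then y (e ⟨b, hb⟩) else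
          if b ∈ M then gr K (N b) else 0) ^ 2 = ∑ b ∈ M, (gr K (N b)) ^ 2 := by
        rw [← sum_subset hM.1]
        · apply sum_congr rfl
          intro b hb
          have : b ∉ R := (mem_sdiff.mp (hM.1 hb)).2
          simp [this, hb]
        · intro b hb hbM
          have : b ∉ R := (mem_sdiff.mp hb).2
          simp [this, hbM]
      have h2 : ∑ b ∈ R, (if hb : b ∈ R then y (e ⟨b, hb⟩) else
          if b ∈ M then gr K (N b) else 0) ^ 2 = r := by
        rw [← hysum, ← sum_coe_sort R, ← e.sum_comp]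
        apply sum_congr rfl
        rintro ⟨b, hb⟩ _
        simp [hb]
      rw [h1, h2]
      omega

/-- Assemble a good set from good sets in the children. -/
lemma assemble {k : ℕ} {q : α → ℕ → β} {X : Finset α} (S : β → Finset α)
    (hS : ∀ b ∈ X.image (fun x => q x 0), S b ⊆ X.filter (fun x => q x 0 = b) ∧
      Good k (shift q) (S b)) (hsq : IsSquare (∑ b ∈ X.image (fun x => q x 0), (S b).card)) :
    ∃ T ⊆ X, T.card = ∑ b ∈ X.image (fun x => q x 0), (S b).card ∧ Good (k + 1) q T := by
  set J := X.image (fun x => q x 0) with hJ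
  have hcard : (J.biUnion S).card = ∑ b ∈ J, (S b).card := by
    apply card_biUnion
    intro b hb c hc hbc
    rw [Function.onFun, disjoint_left]
    intro x hx hx'
    have h1 := (mem_filter.mp ((hS b hb).1 hx)).2
    have h2 := (mem_filter.mp ((hS c hc).1 hx')).2
    exact hbc (h1.symm.trans h2)
  refine ⟨J.biUnion S, ?_, hcard, ?_⟩
  · intro x hx
    obtain ⟨b, hb, hxb⟩ := mem_biUnion.mp hx
    exact (mem_filter.mp ((hS b hb).1 hxb)).1
  · apply Good.succ
    · rw [hcard]; exact hsq
    · intro b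
      by_cases hb : b ∈ J
      · convert (hS b hb).2 using 1
        ext x
        simp only [mem_filter, mem_biUnion]
        constructor
        · rintro ⟨⟨c, hc, hxc⟩, hxb⟩
          have h1 := (mem_filter.mp ((hS c hc).1 hxc)).2
          rw [hxb] at h1
          rw [h1]; exact hxc
        · intro hx
          exact ⟨⟨b, hb, hx⟩, (mem_filter.mp ((hS b hb).1 hx)).2⟩
      · convert Good.empty k (shift q) using 1
        ext x
        simp only [mem_filter, mem_biUnion, notMem_empty, iff_false, not_and]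
        rintro ⟨c, hc, hxc⟩ hxb
        have h1 := (mem_filter.mp ((hS c hc).1 hxc)).2
        rw [hxb] at h1
        exact hb (h1 ▸ hc)

/-- One column selection. -/
theorem select (k : ℕ) : ∀ (q : α → ℕ → β) (X : Finset α) (a : ℕ),
    ((a ≤ 1 ∧ a ≤ X.card) ∨ 8 ^ k * a ^ 2 ≤ X.card) →
    ∃ S ⊆ X, S.card = a ^ 2 ∧ Good k q S := by
  induction k with
  | zero =>
    intro q X a h
    have : a ^ 2 ≤ X.card := by
      rcases h with ⟨h1, h2⟩ | h
      · interval_cases a <;> simp_all
      · simpa using h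
    obtain ⟨S, hS, hSc⟩ := exists_subset_card_eq this
    refine ⟨S, hS, hSc, ?_⟩
    intro j hj b
    obtain rfl : j = 0 := by omega
    simp only [Nat.not_lt_zero, false_imp_iff, implies_true, filter_true, hSc]
    exact ⟨a, by ring⟩
  | succ k ih =>
    intro q X a h
    by_cases ha : a ≤ 1 ∧ a ≤ X.card
    · have h2 : a ^ 2 ≤ X.card := by
        obtain ⟨h1, h2⟩ := ha
        interval_cases a <;> simp_all
      obtain ⟨S, hS, hSc⟩ := exists_subset_card_eq h2
      refine ⟨S, hS, hSc, Good.of_card_le_one ?_⟩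
      rw [hSc]
      obtain ⟨h1, -⟩ := ha
      interval_cases a <;> simp
    · have h : 8 ^ (k + 1) * a ^ 2 ≤ X.card := by tauto
      set J := X.image (fun x => q x 0) with hJ
      have hXc : ∑ b ∈ J, (X.filter (fun x => q x 0 = b)).card = X.card :=
        (card_eq_sum_card_fiberwise (fun x hx => mem_image_of_mem _ hx)).symm
      obtain ⟨x, hx1, hx2⟩ := exists_select J (fun b => (X.filter (fun x => q x 0 = b)).card)
        (8 ^ k) a (by positivity) (by rw [hXc]; calc _ = 8 ^ (k + 1) * a ^ 2 := by ring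
                                                  _ ≤ _ := h)
      have hpos : ∀ b ∈ J, 1 ≤ (X.filter (fun x => q x 0 = b)).card := by
        intro b hb
        obtain ⟨z, hz, hzb⟩ := mem_image.mp hb
        exact card_pos.mpr ⟨z, mem_filter.mpr ⟨hz, hzb⟩⟩
      have hch : ∀ b, ∃ S, b ∈ J → (S ⊆ X.filter (fun x => q x 0 = b) ∧
          S.card = (x b) ^ 2 ∧ Good k (shift q) S) := by
        intro b
        by_cases hb : b ∈ J
        · have hf : (x b ≤ 1 ∧ x b ≤ (X.filter (fun x => q x 0 = b)).card) ∨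
              8 ^ k * (x b) ^ 2 ≤ (X.filter (fun x => q x 0 = b)).card := by
            rcases hx1 b hb with h | h
            · exact Or.inl ⟨h, h.trans (hpos b hb)⟩
            · exact Or.inr h
          obtain ⟨S, h1, h2, h3⟩ := ih (shift q) (X.filter (fun x => q x 0 = b)) (x b) hf
          exact ⟨S, fun _ => ⟨h1, h2, h3⟩⟩
        · exact ⟨∅, fun h => absurd h hb⟩
      choose S hS using hch
      have hsum : ∑ b ∈ J, (S b).card = a ^ 2 := by
        rw [← hx2]
        exact sum_congr rfl fun b hb => (hS b hb).2.1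
      obtain ⟨T, hT1, hT2, hT3⟩ := assemble (k := k) (q := q) (X := X) S
        (fun b hb => ⟨(hS b hb).1, (hS b hb).2.2⟩) (by rw [hsum]; exact ⟨a, by ring⟩)
      exact ⟨T, hT1, hT2.trans hsum, hT3⟩

end Pool.Agent.Helper81.Square
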